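import Mathlib

namespace Pool.Agent.Work.MP_97603a_co

open Relation

variable {V : Type}

/-- `b` is reachable from `a` by a directed walk all of whose vertices lie in `U`. -/
def Reach (E : V → V → Prop) (U : Set V) (a b : V) : Prop :=
  a ∈ U ∧ ReflTransGen (fun x y => E x y ∧ y ∈ U) a b

namespace Reach

variable {E E' : V → V → Prop} {U U' : Set V} {a b c : V}

lemma refl (h : a ∈ U) : Reach E U a a := ⟨h, ReflTransGen.refl⟩

lemma left_mem (h : Reach E U a b) : a ∈ U := h.1

lemma right_mem (h : Reach E U a b) : b ∈ U := by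
  obtain ⟨h1, h2⟩ := h
  induction h2 with
  | refl => exact h1
  | tail _ h3 _ => exact h3.2

lemma tail (h : Reach E U a b) (he : E b c) (hc : c ∈ U) : Reach E U a c :=
  ⟨h.1, h.2.tail ⟨he, hc⟩⟩

lemma head (ha : a ∈ U) (he : E a b) (h : Reach E U b c) : Reach E U a c :=
  ⟨ha, ReflTransGen.head ⟨he, h.1⟩ h.2⟩

lemma trans (h : Reach E U a b) (h' : Reach E U b c) : Reach E U a c :=
  ⟨h.1, h.2.trans h'.2⟩

lemma mono' (h : Reach E U a b) (hE : ∀ x y, x ∈ U → y ∈ U → E x y → E' x y) (hU : U ⊆ U') :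
    Reach E' U' a b := by
  obtain ⟨h1, h2⟩ := h
  induction h2 with
  | refl => exact refl (hU h1)
  | tail h3 h4 ih => exact ih.tail (hE _ _ (right_mem ⟨h1, h3⟩) h4.2 h4.1) (hU h4.2)

lemma mono (h : Reach E U a b) (hU : U ⊆ U') : Reach E U' a b :=
  h.mono' (fun _ _ _ _ h => h) hU

/-- forward induction -/
lemma ind {P : V → Prop} (h : Reach E U a b) (h0 : P a)
    (hs : ∀ x y, Reach E U a x → P x → E x y → y ∈ U → P y) : P b := by
  obtain ⟨h1, h2⟩ := h
  induction h2 with
  | refl => exact h0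
  | tail h3 h4 ih => exact hs _ _ ⟨h1, h3⟩ ih h4.1 h4.2

/-- backward induction -/
lemma ind_back {P : V → Prop} (h : Reach E U a b) (h0 : P b)
    (hs : ∀ x y, x ∈ U → E x y → Reach E U y b → P y → P x) : P a := by
  obtain ⟨h1, h2⟩ := h
  induction h2 using ReflTransGen.head_induction_on with
  | refl => exact h0
  | head h3 h4 ih => exact hs _ _ h1 h3.1 ⟨h3.2, h4⟩ (ih h3.2)

lemma cases_head (h : Reach E U a b) : a = b ∨ ∃ c, E a c ∧ Reach E U c b := by
  rcases h.2.cases_head with h1 | ⟨c, h1, h2⟩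
  · exact Or.inl h1
  · exact Or.inr ⟨c, h1.1, h1.2, h2⟩

lemma cases_tail (h : Reach E U a b) : a = b ∨ ∃ c, Reach E U a c ∧ E c b := by
  rcases h.2.cases_tail with h1 | ⟨c, h1, h2⟩
  · exact Or.inl h1.symm
  · exact Or.inr ⟨c, ⟨h.1, h1⟩, h2.1⟩

/-- either the walk avoids `X`, or it has a first vertex in `X`. -/
lemma first_hit (X : Set V) (h : Reach E U a b) :
    Reach E (U \ X) a b ∨ ∃ c ∈ X, Reach E U c b ∧
      (c = a ∨ ∃ c', Reach E (U \ X) a c' ∧ E c' c) := by
  refine h.ind (P := fun b => Reach E (U \ X) a b ∨ ∃ c ∈ X, Reach E U c b ∧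
      (c = a ∨ ∃ c', Reach E (U \ X) a c' ∧ E c' c)) ?_ ?_
  · by_cases ha : a ∈ X
    · exact Or.inr ⟨a, ha, refl h.1, Or.inl rfl⟩
    · exact Or.inl (refl ⟨h.1, ha⟩)
  · intro x y _ ih he hy
    rcases ih with ih | ⟨c, hc, h1, h2⟩
    · by_cases hyX : y ∈ X
      · exact Or.inr ⟨y, hyX, refl hy, Or.inr ⟨x, ih, he⟩⟩
      · exact Or.inl (ih.tail he ⟨hy, hyX⟩)
    · exact Or.inr ⟨c, hc, h1.tail he hy, h2⟩

/-- either the walk avoids `X`, or it has a last vertex in `X`. -/
lemma last_hit (X : Set V) (h : Reach E U a b) :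
    Reach E (U \ X) a b ∨ ∃ c ∈ X, Reach E U a c ∧
      (c = b ∨ ∃ c', E c c' ∧ Reach E (U \ X) c' b) := by
  refine h.ind_back (P := fun a => Reach E (U \ X) a b ∨ ∃ c ∈ X, Reach E U a c ∧
      (c = b ∨ ∃ c', E c c' ∧ Reach E (U \ X) c' b)) ?_ ?_
  · by_cases hb : b ∈ X
    · exact Or.inr ⟨b, hb, refl h.right_mem, Or.inl rfl⟩
    · exact Or.inl (refl ⟨h.right_mem, hb⟩)
  · intro x y hx he _ ih
    rcases ih with ih | ⟨c, hc, h1, h2⟩
    · by_cases hxX : x ∈ X
      · exact Or.inr ⟨x, hxX, refl hx, Or.inr ⟨y, he, ih⟩⟩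
      · exact Or.inl (head ⟨hx, hxX⟩ he ih)
    · exact Or.inr ⟨c, hc, head hx he h1, h2⟩

/-- restrict to the vertices that are between `a` and `b`. -/
lemma between (h : Reach E U a b) :
    Reach E {z | Reach E U a z ∧ Reach E U z b} a b := by
  have key : ∀ x, Reach E U x b → Reach E U a x →
      Reach E {z | Reach E U a z ∧ Reach E U z b} x b := by
    intro x hx
    refine hx.ind_back (P := fun x => Reach E U a x →
      Reach E {z | Reach E U a z ∧ Reach E U z b} x b) ?_ ?_
    · intro hb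
      exact refl ⟨hb, refl hb.right_mem⟩
    · intro x y hxU he hy ih hax
      exact head ⟨hax, head hxU he hy⟩ he (ih (hax.tail he hy.1))
  exact key a h (refl h.1)

lemma restrict (h : Reach E U a b) (hU : ∀ z, Reach E U a z → Reach E U z b → z ∈ U') :
    Reach E U' a b :=
  h.between.mono (fun z hz => hU z hz.1 hz.2)

/-- every vertex strictly before `b` in the between-set has an out-neighbour in it. -/
lemma between_step (z : V) (h1 : Reach E U a z) (h2 : Reach E U z b) (hz : z ≠ b) :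
    ∃ y, E z y ∧ Reach E U a y ∧ Reach E U y b := by
  rcases h2.cases_head with h | ⟨c, h3, h4⟩
  · exact absurd h hz
  · exact ⟨c, h3, h1.tail h3 h4.1, h4⟩

/-- an injective chain realising a walk -/
lemma exists_chain (h : Reach E U a b) :
    ∃ (m : ℕ) (p : ℕ → V), p 0 = a ∧ p m = b ∧ (∀ i < m, E (p i) (p (i + 1))) ∧
      (∀ i ≤ m, p i ∈ U) ∧ (∀ i ≤ m, ∀ j ≤ m, p i = p j → i = j) := by
  classical
  have h0 : ∃ (m : ℕ) (p : ℕ → V), p 0 = a ∧ p m = b ∧ (∀ i < m, E (p i) (p (i + 1))) ∧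
      (∀ i ≤ m, p i ∈ U) := by
    refine h.ind (P := fun b => ∃ (m : ℕ) (p : ℕ → V), p 0 = a ∧ p m = b ∧
      (∀ i < m, E (p i) (p (i + 1))) ∧ (∀ i ≤ m, p i ∈ U)) ?_ ?_
    · exact ⟨0, fun _ => a, rfl, rfl, by simp, fun _ _ => h.1⟩
    · rintro x y - ⟨m, p, h1, h2, h3, h4⟩ he hy
      refine ⟨m + 1, fun i => if i ≤ m then p i else y, by simp [h1], by simp, ?_, ?_⟩
      · intro i hi
        by_cases h5 : i + 1 ≤ m
        · simp only [h5, show i ≤ m by omega, if_true]
          exact h3 i (by omega)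
        · have : i = m := by omega
          subst this
          simp [h2, he]
      · intro i hi
        by_cases h5 : i ≤ m
        · simp only [h5, if_true]; exact h4 i h5
        · simp only [h5, if_false]; exact hy
  obtain ⟨p, h1, h2, h3, h4⟩ := Nat.find_spec h0
  set m := Nat.find h0 with hm
  refine ⟨m, p, h1, h2, h3, h4, ?_⟩
  have key : ∀ i j, i < j → j ≤ m → p i ≠ p j := by
    intro i j hij hj heq
    apply Nat.find_min h0 (m := m - (j - i)) (by omega)
    refine ⟨fun n => if n ≤ i then p n else p (n + (j - i)), by simp [h1], ?_, ?_, ?_⟩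
    · by_cases h5 : m - (j - i) ≤ i
      · have h6 : j = m := by omega
        have h7 : m - (j - i) = i := by omega
        simp only [h7, le_refl, if_true]
        rw [heq, h6, h2]
      · simp only [h5, if_false]
        rw [show m - (j - i) + (j - i) = m by omega, h2]
    · intro n hn
      by_cases h5 : n + 1 ≤ i
      · simp only [h5, show n ≤ i by omega, if_true]
        exact h3 n (by omega)
      · by_cases h6 : n ≤ i
        · have h7 : n = i := by omega
          subst h7
          simp only [h5, le_refl, if_true, if_false]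
          rw [heq, show n + 1 + (j - n) = j + 1 by omega]
          exact h3 j (by omega)
        · simp only [h5, h6, if_false]
          rw [show n + 1 + (j - i) = n + (j - i) + 1 by omega]
          exact h3 _ (by omega)
    · intro n hn
      by_cases h5 : n ≤ i
      · simp only [h5, if_true]; exact h4 n (by omega)
      · simp only [h5, if_false]; exact h4 _ (by omega)
  intro i hi j hj hij
  rcases lt_trichotomy i j with h5 | h5 | h5
  · exact absurd hij (key i j h5 hj)
  · exact h5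
  · exact absurd hij.symm (key j i h5 hi)

end Reach

lemma reach_seg {E : V → V → Prop} {U : Set V} {p : ℕ → V} {m : ℕ}
    (hp : ∀ i < m, E (p i) (p (i + 1))) (i j : ℕ) (hij : i ≤ j) (hj : j ≤ m)
    (hU : ∀ n, i ≤ n → n ≤ j → p n ∈ U) : Reach E U (p i) (p j) := by
  induction j, hij using Nat.le_induction with
  | base => exact Reach.refl (hU i le_rfl le_rfl)
  | succ j hij ih =>
    exact (ih (by omega) (fun n h1 h2 => hU n h1 (by omega))).tail (hp j (by omega))
      (hU _ (by omega) le_rfl)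

/-- every vertex of `D` has an out-neighbour in `D`. -/
def Cyc (E : V → V → Prop) (D : Set V) : Prop := ∀ x ∈ D, ∃ y ∈ D, E x y

/-- a closed walk gives a `Cyc` set -/
lemma cyc_of_closed {E : V → V → Prop} {U : Set V} {a b : V} (h : Reach E U a b) (he : E b a) :
    ∃ D ⊆ U, D.Nonempty ∧ Cyc E D := by
  refine ⟨{z | Reach E U a z ∧ Reach E U z b}, fun z hz => hz.1.right_mem,
    ⟨a, Reach.refl h.1, h⟩, ?_⟩
  intro z hz
  by_cases hzb : z = b
  · subst hzb
    exact ⟨a, ⟨Reach.refl h.1, h⟩, he⟩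
  · obtain ⟨y, h1, h2, h3⟩ := Reach.between_step z hz.1 hz.2 hzb
    exact ⟨y, ⟨h2, h3⟩, h1⟩

/-- a nonempty finite set in which every vertex has an in-neighbour contains a strongly
connected `Cyc` set -/
lemma cyc_of_in [Finite V] {E : V → V → Prop} {M : Set V} (hM : M.Nonempty)
    (hin : ∀ a ∈ M, ∃ b ∈ M, E b a) :
    ∃ D ⊆ M, D.Nonempty ∧ Cyc E D ∧ ∀ a ∈ D, ∀ b ∈ D, Reach E D a b := by
  obtain ⟨a, ha, hmin⟩ := Set.exists_min_image M
    (fun a => {z | Reach E M z a}.ncard) (Set.toFinite M) hM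
  have key : ∀ b, Reach E M b a → Reach E M a b := by
    intro b hb
    have h1 : {z | Reach E M z b} ⊆ {z | Reach E M z a} := fun z hz => Reach.trans hz hb
    have h2 := Set.eq_of_subset_of_ncard_le h1 (hmin b hb.1) (Set.toFinite _)
    have h3 : a ∈ {z | Reach E M z a} := Reach.refl ha
    rw [← h2] at h3
    exact h3
  have hsc : ∀ b c, Reach E M b a → Reach E M c a → Reach E {z | Reach E M z a} b c := by
    intro b c hb hc
    exact (hb.trans (key c hc)).restrict (fun z _ h2 => h2.trans hc)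
  refine ⟨{z | Reach E M z a}, fun z hz => hz.1, ⟨a, Reach.refl ha⟩, ?_,
    fun b hb c hc => hsc b c hb hc⟩
  intro b hb
  obtain ⟨c, hc, he⟩ := hin b hb.1
  have hca : Reach E M c a := Reach.head hc he hb
  rcases (hsc b c hb hca).cases_head with h | ⟨y, h1, h2⟩
  · subst h
    exact ⟨b, hb, he⟩
  · exact ⟨y, h2.1, h1⟩

end Pool.Agent.Work.MP_97603a_co
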