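import Mathlib
import Pool.Agent.Work.MP_97603a_co.Basic

namespace Pool.Agent.Work.MP_97603a_co

variable {V : Type}

/-- `k` pairwise disjoint `X`-`Y` walks -/
def Linked (E : V → V → Prop) (X Y : Set V) (k : ℕ) : Prop :=
  ∃ (s t : Fin k → V) (P : Fin k → Set V), (∀ i, s i ∈ X ∧ t i ∈ Y ∧ Reach E (P i) (s i) (t i)) ∧
    ∀ i j, i ≠ j → Disjoint (P i) (P j)

/-- no set of fewer than `k` vertices separates `X` from `Y` -/
def NoSep (E : V → V → Prop) (X Y : Set V) (k : ℕ) : Prop :=
  ∀ Z : Finset V, Z.card < k → ∃ x ∈ X, ∃ y ∈ Y, Reach E (↑Z)ᶜ x y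

lemma surj_of_inj {k : ℕ} [DecidableEq V] {Z : Finset V} (hZ : Z.card ≤ k) (t : Fin k → V)
    (ht : ∀ i, t i ∈ Z) (hinj : Function.Injective t) : ∀ z ∈ Z, ∃ i, t i = z := by
  have h1 : Finset.univ.image t ⊆ Z := by
    intro z hz
    obtain ⟨i, -, rfl⟩ := Finset.mem_image.1 hz
    exact ht i
  have h2 : (Finset.univ.image t).card = k := by
    rw [Finset.card_image_of_injective _ hinj]; simp
  have h3 := Finset.eq_of_subset_of_card_le h1 (by omega)
  intro z hz
  rw [← h3] at hz
  obtain ⟨i, -, h⟩ := Finset.mem_image.1 hz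
  exact ⟨i, h⟩

theorem menger_aux [Finite V] (k : ℕ) (n : ℕ) : ∀ (E : V → V → Prop) (X Y : Set V),
    {q : V × V | E q.1 q.2}.ncard ≤ n → NoSep E X Y k → Linked E X Y k := by
  classical
  induction n with
  | zero =>
    intro E X Y hn hsep
    have hE : ∀ a b, ¬ E a b := by
      intro a b hab
      have h1 : {q : V × V | E q.1 q.2} = ∅ :=
        (Set.ncard_eq_zero (Set.toFinite _)).1 (by omega)
      have h2 : (a, b) ∈ {q : V × V | E q.1 q.2} := hab
      rw [h1] at h2
      exact h2
    have hfin : (X ∩ Y).Finite := Set.toFinite _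
    have hk : k ≤ hfin.toFinset.card := by
      by_contra hc
      obtain ⟨x, hx, y, hy, h⟩ := hsep hfin.toFinset (by omega)
      rcases h.cases_head with h1 | ⟨c, h1, -⟩
      · subst h1
        exact h.1 (by simp [hx, hy])
      · exact hE _ _ h1
    obtain ⟨W, hW, hWc⟩ := Finset.exists_subset_card_eq hk
    let f : Fin k → V := fun i => (W.equivFin.symm (Fin.cast hWc.symm i) : V)
    have hf : Function.Injective f := by
      intro i j hij
      have h1 := W.equivFin.symm.injective (Subtype.ext hij)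
      exact Fin.cast_injective _ h1
    have hfm : ∀ i, f i ∈ X ∩ Y := by
      intro i
      have := hW (W.equivFin.symm (Fin.cast hWc.symm i)).2
      simpa using this
    refine ⟨f, f, fun i => {f i}, fun i => ⟨(hfm i).1, (hfm i).2, Reach.refl rfl⟩, ?_⟩
    intro i j hij
    simpa using fun h => hij (hf h)
  | succ n ih =>
    intro E X Y hn hsep
    by_cases hle : {q : V × V | E q.1 q.2}.ncard ≤ n
    · exact ih E X Y hle hsep
    obtain ⟨⟨a, b⟩, hab⟩ : {q : V × V | E q.1 q.2}.Nonempty := by
      rw [← Set.ncard_pos (Set.toFinite _)]; omega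
    have hab : E a b := hab
    let E' : V → V → Prop := fun x y => E x y ∧ ¬ (x = a ∧ y = b)
    have hE'E : ∀ x y, E' x y → E x y := fun x y h => h.1
    have hn' : {q : V × V | E' q.1 q.2}.ncard ≤ n := by
      have h1 : {q : V × V | E' q.1 q.2} ⊂ {q : V × V | E q.1 q.2} := by
        refine ⟨fun q hq => hq.1, fun h => ?_⟩
        exact (h (a := (a, b)) hab).2 ⟨rfl, rfl⟩
      have := Set.ncard_lt_ncard h1 (Set.toFinite _)
      omega
    by_cases hsep' : NoSep E' X Y k
    · obtain ⟨s, t, P, h1, h2⟩ := ih E' X Y hn' hsep'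
      exact ⟨s, t, P, fun i => ⟨(h1 i).1, (h1 i).2.1,
        (h1 i).2.2.mono' (fun x y _ _ h => h.1) subset_rfl⟩, h2⟩
    unfold NoSep at hsep'
    push Not at hsep'
    obtain ⟨Z, hZk, hZ⟩ := hsep'
    -- walks avoiding `a` or avoiding `b` are walks of `E'`
    have hconv : ∀ (U : Set V) x y, (a ∉ U ∨ b ∉ U) → Reach E U x y → Reach E' U x y := by
      intro U x y hU h
      refine h.mono' ?_ subset_rfl
      rintro x y hx hy he
      refine ⟨he, ?_⟩
      rintro ⟨rfl, rfl⟩
      rcases hU with hU | hU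
      · exact hU hx
      · exact hU hy
    have haZ : a ∉ Z := by
      intro ha
      obtain ⟨x, hx, y, hy, h⟩ := hsep Z hZk
      exact hZ x hx y hy (hconv _ _ _ (Or.inl (by simpa using ha)) h)
    have hbZ : b ∉ Z := by
      intro hb
      obtain ⟨x, hx, y, hy, h⟩ := hsep Z hZk
      exact hZ x hx y hy (hconv _ _ _ (Or.inr (by simpa using hb)) h)
    have h1 : NoSep E' X (↑(insert a Z)) k := by
      intro W hW
      obtain ⟨x, hx, y, hy, h⟩ := hsep W hW
      rcases h.first_hit (↑(insert a Z)) with h2 | ⟨c, hc, h2, h3⟩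
      · exfalso
        refine hZ x hx y hy ((hconv _ _ _ (Or.inl (by simp)) h2).mono ?_)
        intro z hz hzZ
        exact hz.2 (by simp [show z ∈ Z from hzZ])
      · refine ⟨x, hx, c, hc, ?_⟩
        rcases h3 with rfl | ⟨c', h3, h4⟩
        · exact Reach.refl h.1
        · have h5 := hconv _ _ _ (Or.inl (by simp)) h3
          refine (h5.mono Set.sdiff_subset).tail ⟨h4, ?_⟩ h2.1
          rintro ⟨rfl, -⟩
          exact h3.right_mem.2 (by simp)
    have h2 : NoSep E' (↑(insert b Z)) Y k := by
      intro W hW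
      obtain ⟨x, hx, y, hy, h⟩ := hsep W hW
      rcases h.last_hit (↑(insert b Z)) with h2 | ⟨c, hc, h2, h3⟩
      · exfalso
        refine hZ x hx y hy ((hconv _ _ _ (Or.inr (by simp)) h2).mono ?_)
        intro z hz hzZ
        exact hz.2 (by simp [show z ∈ Z from hzZ])
      · refine ⟨c, hc, y, hy, ?_⟩
        rcases h3 with rfl | ⟨c', h3, h4⟩
        · exact Reach.refl h.right_mem
        · have h5 := hconv _ _ _ (Or.inr (by simp)) h4
          refine Reach.head h2.right_mem ⟨h3, ?_⟩ (h5.mono Set.sdiff_subset)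
          rintro ⟨-, rfl⟩
          exact h4.1.2 (by simp)
    obtain ⟨s1, t1, P1, hP1, hd1⟩ := ih E' X _ hn' h1
    obtain ⟨s2, t2, P2, hP2, hd2⟩ := ih E' _ Y hn' h2
    have ht1 : Function.Injective t1 := by
      intro i j hij
      by_contra hc
      exact Set.disjoint_left.1 (hd1 i j hc) (hP1 i).2.2.right_mem
        (hij ▸ (hP1 j).2.2.right_mem)
    have hs2 : Function.Injective s2 := by
      intro i j hij
      by_contra hc
      exact Set.disjoint_left.1 (hd2 i j hc) (hP2 i).2.2.1 (hij ▸ (hP2 j).2.2.1)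
    have hca : (insert a Z).card ≤ k := le_trans (Finset.card_insert_le _ _) (by omega)
    have hcb : (insert b Z).card ≤ k := le_trans (Finset.card_insert_le _ _) (by omega)
    have hsu1 := surj_of_inj hca t1 (fun i => by simpa using (hP1 i).2.1) ht1
    have hsu2 := surj_of_inj hcb s2 (fun i => by simpa using (hP2 i).1) hs2
    have hu1 : ∀ i z, z ∈ P1 i → z ∈ insert a Z → z = t1 i := by
      intro i z hz hzZ
      obtain ⟨j, rfl⟩ := hsu1 z hzZ
      by_contra hc
      have hij : j ≠ i := fun h => hc (by rw [h])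
      exact Set.disjoint_left.1 (hd1 j i hij) (hP1 j).2.2.right_mem hz
    have hu2 : ∀ i z, z ∈ P2 i → z ∈ insert b Z → z = s2 i := by
      intro i z hz hzZ
      obtain ⟨j, rfl⟩ := hsu2 z hzZ
      by_contra hc
      have hij : j ≠ i := fun h => hc (by rw [h])
      exact Set.disjoint_left.1 (hd2 j i hij) (hP2 j).2.2.1 hz
    have hmatch : ∀ i, ∃ j, s2 j = (if t1 i = a then b else t1 i) := by
      intro i
      apply hsu2
      have h3 : t1 i ∈ insert a Z := by simpa using (hP1 i).2.1
      by_cases h4 : t1 i = a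
      · simp [h4]
      · simp only [h4, if_false]
        rcases Finset.mem_insert.1 h3 with h5 | h5
        · exact absurd h5 h4
        · exact Finset.mem_insert_of_mem h5
    choose pi hpi using hmatch
    have hpiinj : ∀ i j, pi i = pi j → i = j := by
      intro i j hij
      have h3 := hpi i
      rw [hij, hpi j] at h3
      have h4 : t1 i ∈ insert a Z := by simpa using (hP1 i).2.1
      have h5 : t1 j ∈ insert a Z := by simpa using (hP1 j).2.1
      apply ht1
      by_cases h6 : t1 i = a <;> by_cases h7 : t1 j = a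
      · rw [h6, h7]
      · simp only [h6, h7, if_true, if_false] at h3
        rcases Finset.mem_insert.1 h5 with h8 | h8
        · exact absurd h8 h7
        · exact absurd (h3 ▸ h8) hbZ
      · simp only [h6, h7, if_true, if_false] at h3
        rcases Finset.mem_insert.1 h4 with h8 | h8
        · exact absurd h8 h6
        · exact absurd (h3 ▸ h8) hbZ
      · simp only [h6, h7, if_false] at h3
        exact h3.symm
    let P' : Fin k → Set V := fun i => {w | w = t1 i ∨ Reach E' (P1 i \ {t1 i}) (s1 i) w}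
    let Q' : Fin k → Set V := fun j => {w | w = s2 j ∨ Reach E' (P2 j \ {s2 j}) w (t2 j)}
    have hP'sub : ∀ i, P' i ⊆ P1 i := by
      rintro i w (rfl | hw)
      · exact (hP1 i).2.2.right_mem
      · exact hw.right_mem.1
    have hQ'sub : ∀ i, Q' i ⊆ P2 i := by
      rintro i w (rfl | hw)
      · exact (hP2 i).2.2.1
      · exact hw.1.1
    have hP'r : ∀ i, Reach E' (P' i) (s1 i) (t1 i) := by
      intro i
      rcases (hP1 i).2.2.first_hit {t1 i} with h | ⟨c, hc, -, h⟩
      · exact absurd rfl h.right_mem.2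
      · have hc : c = t1 i := hc
        subst hc
        rcases h with h | ⟨c', h3, h4⟩
        · rw [← h]; exact Reach.refl (Or.inl rfl)
        · exact (h3.restrict (fun z h5 _ => Or.inr h5)).tail h4 (Or.inl rfl)
    have hQ'r : ∀ i, Reach E' (Q' i) (s2 i) (t2 i) := by
      intro i
      rcases (hP2 i).2.2.last_hit {s2 i} with h | ⟨c, hc, -, h⟩
      · exact absurd rfl h.1.2
      · have hc : c = s2 i := hc
        subst hc
        rcases h with h | ⟨c', h3, h4⟩
        · rw [← h]; exact Reach.refl (Or.inl rfl)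
        · exact Reach.head (Or.inl rfl) h3 (h4.restrict (fun z _ h5 => Or.inr h5))
    -- a vertex of `P' i` outside `Z` is reachable from `X` avoiding `Z`
    have hPZ : ∀ i w, w ∈ P' i → w ∉ Z → Reach E' (↑Z)ᶜ (s1 i) w := by
      rintro i w (rfl | hw) hwZ
      · refine (hP'r i).mono ?_
        intro z hz hzZ
        have := hu1 i z (hP'sub i hz) (Finset.mem_insert_of_mem hzZ)
        exact hwZ (this ▸ hzZ)
      · refine hw.mono ?_
        intro z hz hzZ
        exact hz.2 (hu1 i z hz.1 (Finset.mem_insert_of_mem hzZ))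
    have hQZ : ∀ i w, w ∈ Q' i → w ∉ Z → Reach E' (↑Z)ᶜ w (t2 i) := by
      rintro i w (rfl | hw) hwZ
      · refine (hQ'r i).mono ?_
        intro z hz hzZ
        have := hu2 i z (hQ'sub i hz) (Finset.mem_insert_of_mem hzZ)
        exact hwZ (this ▸ hzZ)
      · refine hw.mono ?_
        intro z hz hzZ
        exact hz.2 (hu2 i z hz.1 (Finset.mem_insert_of_mem hzZ))
    have hcross : ∀ i j w, w ∈ P' i → w ∈ Q' (pi j) → i = j := by
      intro i j w h3 h4
      by_cases hw : w ∈ Z
      · have h5 := hu1 i w (hP'sub i h3) (Finset.mem_insert_of_mem hw)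
        have h6 := hu2 _ w (hQ'sub _ h4) (Finset.mem_insert_of_mem hw)
        rw [hpi j] at h6
        by_cases h7 : t1 j = a
        · simp only [h7, if_true] at h6
          exact absurd (h6 ▸ hw) hbZ
        · simp only [h7, if_false] at h6
          exact ht1 (h5.symm.trans h6)
      · exact absurd ((hPZ i w h3 hw).trans (hQZ _ w h4 hw)) (hZ _ (hP1 i).1 _ (hP2 _).2.1)
    refine ⟨s1, fun i => t2 (pi i), fun i => P' i ∪ Q' (pi i), fun i => ⟨(hP1 i).1,
      (hP2 _).2.1, ?_⟩, ?_⟩
    · have h3 : Reach E (P' i ∪ Q' (pi i)) (s1 i) (t1 i) :=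
        (hP'r i).mono' (fun x y _ _ h => h.1) Set.subset_union_left
      have h4 : Reach E (P' i ∪ Q' (pi i)) (s2 (pi i)) (t2 (pi i)) :=
        (hQ'r _).mono' (fun x y _ _ h => h.1) Set.subset_union_right
      rw [hpi i] at h4
      by_cases h5 : t1 i = a
      · simp only [h5, if_true] at h4
        rw [h5] at h3
        exact (h3.tail hab h4.1).trans h4
      · simp only [h5, if_false] at h4
        exact h3.trans h4
    · intro i j hij
      rw [Set.disjoint_left]
      rintro w (h3 | h3) (h4 | h4)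
      · exact Set.disjoint_left.1 (hd1 i j hij) (hP'sub i h3) (hP'sub j h4)
      · exact hij (hcross i j w h3 h4)
      · exact hij (hcross j i w h4 h3).symm
      · exact Set.disjoint_left.1 (hd2 _ _ (fun h => hij (hpiinj i j h))) (hQ'sub _ h3)
          (hQ'sub _ h4)

/-- Menger's theorem for finite digraphs, vertex version. -/
theorem menger [Finite V] (k : ℕ) (E : V → V → Prop) (X Y : Set V) (h : NoSep E X Y k) :
    Linked E X Y k := menger_aux k _ E X Y le_rfl h

end Pool.Agent.Work.MP_97603a_co
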