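import Mathlib

namespace Pool.Agent.Work.MP_97603a_co

/-- `V = U ∪ W` is a friendly partition of the digraph `G`: two nonempty disjoint parts covering
`V`, and every vertex has an out-neighbour in its own part. -/
def IsFriendlyPartition {V : Type} (G : Digraph V) (U W : Set V) : Prop :=
  U.Nonempty ∧ W.Nonempty ∧ Disjoint U W ∧ U ∪ W = Set.univ ∧
    (∀ x ∈ U, ∃ y ∈ U, G.Adj x y) ∧ (∀ x ∈ W, ∃ y ∈ W, G.Adj x y)

/-- `S` is separable: some friendly partition has a vertex of `S` in each part. -/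
def Separable {V : Type} (G : Digraph V) (S : Finset V) : Prop :=
  ∃ U W : Set V, IsFriendlyPartition G U W ∧ (∃ x ∈ S, x ∈ U) ∧ (∃ x ∈ S, x ∈ W)

end Pool.Agent.Work.MP_97603a_co
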