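import Mathlib
import Pool.Agent.Work.MP_97603a_co.Basic

namespace Pool.Agent.Work.MP_97603a_co

variable {V : Type}

/-- An instance: a loopless digraph with a set `T` of terminals (no out-edges); all other
vertices have out-degree at least `d`. -/
structure Good (d : ℕ) (E : V → V → Prop) (T : Set V) : Prop where
  irrefl : ∀ x, ¬ E x x
  term : ∀ x y, E x y → x ∉ T
  deg : ∀ x, x ∉ T → ∃ N : Finset V, d ≤ N.card ∧ ∀ y ∈ N, E x y

def Friendly (E : V → V → Prop) (T U : Set V) : Prop := ∀ x ∈ U, x ∉ T → ∃ y ∈ U, E x y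

def Sep (E : V → V → Prop) (T : Set V) (u v : V) : Prop :=
  ∃ U0 U1 : Set V, Disjoint U0 U1 ∧ Friendly E T U0 ∧ Friendly E T U1 ∧ u ∈ U0 ∧ v ∈ U1

def Sep2 (E : V → V → Prop) (T : Set V) (u v a b : V) : Prop :=
  ∃ U0 U1 : Set V, Disjoint U0 U1 ∧ Friendly E T U0 ∧ Friendly E T U1 ∧ u ∈ U0 ∧ v ∈ U1 ∧
    ((a ∈ U0 ∧ b ∈ U1) ∨ (b ∈ U0 ∧ a ∈ U1))

lemma Sep2.swap_right {E : V → V → Prop} {T : Set V} {u v a b : V} (h : Sep2 E T u v a b) :
    Sep2 E T u v b a := by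
  obtain ⟨U0, U1, h1, h2, h3, h4, h5, h6⟩ := h
  exact ⟨U0, U1, h1, h2, h3, h4, h5, h6.symm⟩

lemma Sep2.swap_left {E : V → V → Prop} {T : Set V} {u v a b : V} (h : Sep2 E T u v a b) :
    Sep2 E T v u a b := by
  obtain ⟨U0, U1, h1, h2, h3, h4, h5, h6⟩ := h
  refine ⟨U1, U0, h1.symm, h3, h2, h5, h4, ?_⟩
  tauto

lemma Sep.symm {E : V → V → Prop} {T : Set V} {u v : V} (h : Sep E T u v) : Sep E T v u := by
  obtain ⟨U0, U1, h1, h2, h3, h4, h5⟩ := h
  exact ⟨U1, U0, h1.symm, h3, h2, h5, h4⟩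

/-- induction hypothesis -/
def IHyp (V : Type) (d n : ℕ) : Prop :=
  ∀ (E : V → V → Prop) (T : Set V), Good d E T → Tᶜ.ncard < n → ∀ u v, u ≠ v → Sep E T u v

structure Blocking (E : V → V → Prop) (T : Set V) (u v : V) : Prop where
  b1 : ∀ D : Set V, D.Nonempty → Cyc E D → ∀ s, (s = u ∨ s = v) → ∀ t ∈ T, ¬ Reach E Dᶜ s t
  b2 : ∀ D0 D1 : Set V, Disjoint D0 D1 → Cyc E D0 → Cyc E D1 → u ∈ D0 → v ∈ D1 → False

lemma Blocking.symm {E : V → V → Prop} {T : Set V} {u v : V} (h : Blocking E T u v) :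
    Blocking E T v u :=
  ⟨fun D h1 h2 s hs => h.b1 D h1 h2 s hs.symm,
    fun D0 D1 h1 h2 h3 h4 h5 => h.b2 D1 D0 h1.symm h3 h2 h5 h4⟩

lemma Good.nbr {d : ℕ} {E : V → V → Prop} {T : Set V} (h : Good d E T) {x : V} (hx : x ∉ T)
    (F : Finset V) (hF : F.card < d) : ∃ y, E x y ∧ y ∉ F := by
  obtain ⟨N, h1, h2⟩ := h.deg x hx
  by_contra hc
  push Not at hc
  have : N ⊆ F := fun y hy => hc y (h2 y hy)
  have := Finset.card_le_card this
  omega

/-- make everything outside `A` a terminal -/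
def restr (E : V → V → Prop) (A : Set V) : V → V → Prop := fun a b => E a b ∧ a ∈ A

lemma Good.restr {d : ℕ} {E : V → V → Prop} {T : Set V} (h : Good d E T) {A : Set V}
    (hA : ∀ x ∈ A, x ∉ T) : Good d (restr E A) Aᶜ := by
  refine ⟨fun x hx => h.irrefl x hx.1, fun x y hx => by simpa using hx.2, ?_⟩
  intro x hx
  have hx : x ∈ A := by simpa using hx
  obtain ⟨N, h1, h2⟩ := h.deg x (hA x hx)
  exact ⟨N, h1, fun y hy => ⟨h2 y hy, hx⟩⟩

/-! ### Contraction of an edge `x → y` -/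

def ctr (E : V → V → Prop) (x y : V) : V → V → Prop := fun a b =>
  a ≠ x ∧ b ≠ x ∧ (E a b ∨ (E a x ∧ b = y ∧ a ≠ y))

def lift (x y : V) (U : Set V) : Set V := {a | (a ∈ U ∧ a ≠ x) ∨ (a = x ∧ y ∈ U)}

open Classical in
noncomputable def phi (x y a : V) : V := if a = x then y else a

section ctr

variable {d : ℕ} {E : V → V → Prop} {T : Set V} {x y : V}

lemma Good.ctr (h : Good d E T) (hxy : E x y) (hyx : ¬ E y x) (hnd : ∀ w, E w x → ¬ E w y) :
    Good d (ctr E x y) (insert x T) := by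
  classical
  refine ⟨?_, ?_, ?_⟩
  · rintro a ⟨-, -, h1 | ⟨-, h1, h2⟩⟩
    · exact h.irrefl a h1
    · exact h2 h1
  · rintro a b ⟨h1, -, h2 | ⟨h2, -⟩⟩ h3
    · rcases h3 with h3 | h3
      · exact h1 h3
      · exact h.term a b h2 h3
    · rcases h3 with h3 | h3
      · exact h1 h3
      · exact h.term a x h2 h3
  · intro a ha
    have hax : a ≠ x := fun h => ha (Or.inl h)
    have haT : a ∉ T := fun h => ha (Or.inr h)
    have hyx' : y ≠ x := fun h1 => h.irrefl x (h1 ▸ hxy)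
    obtain ⟨N, h1, h2⟩ := h.deg a haT
    by_cases hxN : x ∈ N
    · have h3 : E a x := h2 x hxN
      have h4 : y ∉ N.erase x := fun h5 => hnd a h3 (h2 y (Finset.mem_of_mem_erase h5))
      refine ⟨insert y (N.erase x), ?_, ?_⟩
      · rw [Finset.card_insert_of_notMem h4, Finset.card_erase_of_mem hxN]
        have := Finset.card_pos.2 ⟨x, hxN⟩
        omega
      · intro b hb
        rcases Finset.mem_insert.1 hb with rfl | hb
        · exact ⟨hax, hyx', Or.inr ⟨h3, rfl, fun h5 => hyx (h5 ▸ h3)⟩⟩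
        · exact ⟨hax, (Finset.mem_erase.1 hb).1, Or.inl (h2 b (Finset.mem_of_mem_erase hb))⟩
    · exact ⟨N, h1, fun b hb => ⟨hax, fun h3 => hxN (h3 ▸ hb), Or.inl (h2 b hb)⟩⟩

lemma ncard_ctr [Finite V] (hx : x ∉ T) : (insert x T)ᶜ.ncard < Tᶜ.ncard := by
  apply Set.ncard_lt_ncard _ (Set.toFinite _)
  refine ⟨fun a ha h => ha (Or.inr h), fun h => ?_⟩
  exact h (a := x) hx (Or.inl rfl)

lemma lift_disjoint {U0 U1 : Set V} (h : Disjoint U0 U1) :
    Disjoint (lift x y U0) (lift x y U1) := by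
  rw [Set.disjoint_left] at h ⊢
  rintro a (⟨h1, h2⟩ | ⟨h1, h2⟩) (⟨h3, h4⟩ | ⟨h3, h4⟩)
  · exact h h1 h3
  · exact h2 h3
  · exact h4 h1
  · exact h h2 h4

lemma mem_lift {U : Set V} {a : V} (h : phi x y a ∈ U) : a ∈ lift x y U := by
  unfold phi at h
  by_cases h1 : a = x
  · simp only [h1, if_true] at h
    exact Or.inr ⟨h1, h⟩
  · simp only [h1, if_false] at h
    exact Or.inl ⟨h, h1⟩

lemma lift_step (hxy : E x y) (hyx : y ≠ x) {U : Set V} {a : V} (ha : a ∈ lift x y U)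
    (h : a ≠ x → ∃ b ∈ U, ctr E x y a b) : ∃ b ∈ lift x y U, E a b := by
  rcases ha with ⟨_, h2⟩ | ⟨h1, h2⟩
  · obtain ⟨b, hb, -, h3, h4 | ⟨h4, h5, -⟩⟩ := h h2
    · exact ⟨b, Or.inl ⟨hb, h3⟩, h4⟩
    · exact ⟨x, Or.inr ⟨rfl, h5 ▸ hb⟩, h4⟩
  · exact ⟨y, Or.inl ⟨h2, hyx⟩, h1 ▸ hxy⟩

lemma lift_friendly (hxy : E x y) (hyx : y ≠ x) {U : Set V}
    (h : Friendly (ctr E x y) (insert x T) U) : Friendly E T (lift x y U) := by
  intro a ha haT
  refine lift_step hxy hyx ha (fun h1 => h a ?_ ?_)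
  · rcases ha with ⟨h2, -⟩ | ⟨h2, -⟩
    · exact h2
    · exact absurd h2 h1
  · rintro (h2 | h2)
    · exact h1 h2
    · exact haT h2

lemma lift_cyc (hxy : E x y) (hyx : y ≠ x) {U : Set V}
    (h : Cyc (ctr E x y) U) : Cyc E (lift x y U) := by
  intro a ha
  refine lift_step hxy hyx ha (fun h1 => h a ?_)
  rcases ha with ⟨h2, -⟩ | ⟨h2, -⟩
  · exact h2
  · exact absurd h2 h1

lemma phi_ne (hyx : y ≠ x) (a : V) : phi x y a ≠ x := by
  unfold phi
  by_cases h1 : a = x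
  · simpa [h1] using hyx
  · simp [h1]

lemma lift_reach (hxy : E x y) (hyx : y ≠ x) {U : Set V} {s t : V}
    (h : Reach (ctr E x y) U (phi x y s) t) : t ≠ x ∧ Reach E (lift x y U) s t := by
  refine h.ind (P := fun t => t ≠ x ∧ Reach E (lift x y U) s t) ⟨phi_ne hyx s, ?_⟩ ?_
  · have h1 := mem_lift h.1
    have h2 := h.1
    unfold phi at h2 ⊢
    by_cases h3 : s = x
    · simp only [h3, if_true] at h2 ⊢
      exact (Reach.refl (h3 ▸ h1)).tail hxy (Or.inl ⟨h2, hyx⟩)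
    · simp only [h3, if_false]
      exact Reach.refl h1
  · rintro a b - ⟨-, ih⟩ ⟨-, h2, h3 | ⟨h3, h4, -⟩⟩ hb
    · exact ⟨h2, ih.tail h3 (Or.inl ⟨hb, h2⟩)⟩
    · subst h4
      exact ⟨h2, (ih.tail h3 (Or.inr ⟨rfl, hb⟩)).tail hxy (Or.inl ⟨hb, h2⟩)⟩

lemma phi_inj {a b : V} (hab : a ≠ b) (h1 : ¬ (x = a ∧ y = b)) (h2 : ¬ (x = b ∧ y = a)) :
    phi x y a ≠ phi x y b := by
  unfold phi
  by_cases h3 : a = x <;> by_cases h4 : b = x
  · exact absurd (h3.trans h4.symm) hab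
  · simp only [h3, h4, if_true, if_false]
    exact fun h => h1 ⟨h3.symm, h⟩
  · simp only [h3, h4, if_true, if_false]
    exact fun h => h2 ⟨h4.symm, h.symm⟩
  · simpa [h3, h4] using hab

lemma Blocking.ctr {u v : V} (h : Blocking E T u v) (hxy : E x y) (hyx : y ≠ x) :
    Blocking (ctr E x y) (insert x T) (phi x y u) (phi x y v) := by
  constructor
  · intro D hD hc s hs t ht hr
    have h1 : (lift x y D).Nonempty := by
      obtain ⟨a, ha⟩ := hD
      obtain ⟨b, -, h2, -⟩ := hc a ha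
      exact ⟨a, Or.inl ⟨ha, h2⟩⟩
    have h2 : lift x y Dᶜ ⊆ (lift x y D)ᶜ := fun a ha h3 =>
      Set.disjoint_left.1 (lift_disjoint (x := x) (y := y) disjoint_compl_left) ha h3
    rcases hs with rfl | rfl
    · obtain ⟨h3, h4⟩ := lift_reach hxy hyx hr
      rcases ht with ht | ht
      · exact h3 ht
      · exact h.b1 _ h1 (lift_cyc hxy hyx hc) u (Or.inl rfl) t ht (h4.mono h2)
    · obtain ⟨h3, h4⟩ := lift_reach hxy hyx hr
      rcases ht with ht | ht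
      · exact h3 ht
      · exact h.b1 _ h1 (lift_cyc hxy hyx hc) v (Or.inr rfl) t ht (h4.mono h2)
  · intro D0 D1 h1 h2 h3 h4 h5
    exact h.b2 _ _ (lift_disjoint h1) (lift_cyc hxy hyx h2) (lift_cyc hxy hyx h3)
      (mem_lift h4) (mem_lift h5)

lemma Sep.of_ctr {u v : V} (hxy : E x y) (hyx : y ≠ x)
    (h : Sep (ctr E x y) (insert x T) (phi x y u) (phi x y v)) : Sep E T u v := by
  obtain ⟨U0, U1, h1, h2, h3, h4, h5⟩ := h
  exact ⟨_, _, lift_disjoint h1, lift_friendly hxy hyx h2, lift_friendly hxy hyx h3,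
    mem_lift h4, mem_lift h5⟩

lemma Sep2.of_ctr {u v a b : V} (hxy : E x y) (hyx : y ≠ x)
    (h : Sep2 (ctr E x y) (insert x T) (phi x y u) (phi x y v) (phi x y a) (phi x y b)) :
    Sep2 E T u v a b := by
  obtain ⟨U0, U1, h1, h2, h3, h4, h5, h6⟩ := h
  refine ⟨_, _, lift_disjoint h1, lift_friendly hxy hyx h2, lift_friendly hxy hyx h3,
    mem_lift h4, mem_lift h5, ?_⟩
  rcases h6 with h6 | h6
  · exact Or.inl ⟨mem_lift h6.1, mem_lift h6.2⟩
  · exact Or.inr ⟨mem_lift h6.1, mem_lift h6.2⟩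

end ctr

/-! ### Restriction to the part before a cut -/

/-- vertices reachable from `u` or `v` while avoiding `X` -/
def Av (E : V → V → Prop) (u v : V) (X : Set V) : Set V :=
  {z | Reach E Xᶜ u z ∨ Reach E Xᶜ v z}

lemma Av.symm (E : V → V → Prop) (u v : V) (X : Set V) : Av E u v X = Av E v u X := by
  ext z; exact or_comm

lemma Av.not_mem {E : V → V → Prop} {u v : V} {X : Set V} {z : V} (h : z ∈ Av E u v X) :
    z ∉ X := by
  rcases h with h | h <;> exact h.right_mem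

lemma Av.step {E : V → V → Prop} {u v : V} {X : Set V} {a b : V} (h : a ∈ Av E u v X)
    (he : E a b) (hb : b ∉ X) : b ∈ Av E u v X := by
  rcases h with h | h
  · exact Or.inl (h.tail he hb)
  · exact Or.inr (h.tail he hb)

lemma Av.reach {E : V → V → Prop} {u v : V} {X : Set V} {a b : V} (h : a ∈ Av E u v X)
    (he : Reach E Xᶜ a b) : b ∈ Av E u v X := by
  rcases h with h | h
  · exact Or.inl (h.trans he)
  · exact Or.inr (h.trans he)

lemma Av.src {E : V → V → Prop} {u v : V} {X : Set V} {s : V} (hs : s = u ∨ s = v)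
    (h : s ∉ X) : s ∈ Av E u v X := by
  rcases hs with rfl | rfl
  · exact Or.inl (Reach.refl h)
  · exact Or.inr (Reach.refl h)

lemma Av.of_reach {E : V → V → Prop} {u v : V} {X : Set V} {s z : V} (hs : s = u ∨ s = v)
    (h : Reach E Xᶜ s z) : z ∈ Av E u v X := Av.reach (Av.src hs h.1) h

lemma Av.exists_reach {E : V → V → Prop} {u v : V} {X : Set V} {z : V} (h : z ∈ Av E u v X) :
    ∃ s, (s = u ∨ s = v) ∧ Reach E (Av E u v X) s z := by
  rcases h with h | h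
  · exact ⟨u, Or.inl rfl, h.restrict (fun w h1 _ => Or.inl h1)⟩
  · exact ⟨v, Or.inr rfl, h.restrict (fun w h1 _ => Or.inr h1)⟩

/-- a walk in the restricted instance from a source that ends outside `Av X` ends in `X` -/
lemma Av.exit {E : V → V → Prop} {u v : V} {X U : Set V} {s t : V} (hs : s = u ∨ s = v)
    (h : Reach (restr E (Av E u v X)) U s t) (ht : t ∉ Av E u v X) :
    t ∈ X ∧ (t = s ∨ ∃ a ∈ Av E u v X, E a t) := by
  rcases h.cases_tail with h1 | ⟨c, -, h1⟩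
  · subst h1
    exact ⟨by by_contra hc; exact ht (Av.src hs hc), Or.inl rfl⟩
  · exact ⟨by by_contra hc; exact ht (Av.step h1.2 h1.1 hc), Or.inr ⟨c, h1.2, h1.1⟩⟩

lemma cut_restr {E : V → V → Prop} {T : Set V} {u v : V}
    (hB : Blocking E T u v) (X : Set V)
    (hX : ∀ s, (s = u ∨ s = v) → ∀ t ∈ T, ¬ Reach E Xᶜ s t) :
    ∃ X' ⊆ X, (∀ s, (s = u ∨ s = v) → ∀ t ∈ T, ¬ Reach E X'ᶜ s t) ∧
      (∀ z ∈ Av E u v X', z ∉ T) ∧
      Blocking (restr E (Av E u v X')) (Av E u v X')ᶜ u v := by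
  let X' : Set V := {x | x ∈ X ∧ (x ∈ T ∨ ∃ y, E x y ∧ ∃ t ∈ T, Reach E Xᶜ y t)}
  have hcut : ∀ s, (s = u ∨ s = v) → ∀ t ∈ T, ¬ Reach E X'ᶜ s t := by
    intro s hs t ht hr
    rcases hr.last_hit X with h | ⟨c, hc, h1, h2⟩
    · exact hX s hs t ht (h.mono (fun z hz => hz.2))
    · apply h1.right_mem
      refine ⟨hc, ?_⟩
      rcases h2 with rfl | ⟨c', h2, h3⟩
      · exact Or.inl ht
      · exact Or.inr ⟨c', h2, t, ht, h3.mono (fun z hz => hz.2)⟩
  have hAT : ∀ z ∈ Av E u v X', ∀ t ∈ T, ¬ Reach E X'ᶜ z t := by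
    rintro z (hz | hz) t ht hr
    · exact hcut u (Or.inl rfl) t ht (hz.trans hr)
    · exact hcut v (Or.inr rfl) t ht (hz.trans hr)
  refine ⟨X', fun x hx => hx.1, hcut, fun z hz ht => hAT z hz z ht (Reach.refl (Av.not_mem hz)),
    ?_, ?_⟩
  · intro D hD hc s hs t ht hr
    have hDA : D ⊆ Av E u v X' := by
      intro z hz
      obtain ⟨y, -, h1⟩ := hc z hz
      exact h1.2
    have hc' : Cyc E D := fun z hz => by
      obtain ⟨y, h1, h2⟩ := hc z hz
      exact ⟨y, h1, h2.1⟩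
    have h1 := (Av.exit hs hr ht).1
    have h2 : Reach E Dᶜ s t := hr.mono' (fun _ _ _ _ h => h.1) subset_rfl
    rcases h1.2 with h3 | ⟨y, h3, t', ht', h4⟩
    · exact hB.b1 D hD hc' s hs t h3 h2
    · have h5 : Reach E Dᶜ y t' := by
        refine h4.restrict ?_
        intro z _ h6 hzD
        exact hAT z (hDA hzD) t' ht' (h6.mono (fun w hw h7 => hw h7.1))
      exact hB.b1 D hD hc' s hs t' ht' ((h2.tail h3 h5.1).trans h5)
  · intro D0 D1 h1 h2 h3 h4 h5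
    refine hB.b2 D0 D1 h1 (fun z hz => ?_) (fun z hz => ?_) h4 h5
    · obtain ⟨y, h6, h7⟩ := h2 z hz
      exact ⟨y, h6, h7.1⟩
    · obtain ⟨y, h6, h7⟩ := h3 z hz
      exact ⟨y, h6, h7.1⟩

end Pool.Agent.Work.MP_97603a_co
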