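import Mathlib
import Pool.Agent.Work.MP_97603a_co.Inst

namespace Pool.Agent.Work.MP_97603a_co

variable {V : Type}

def img (p : ℕ → V) (m : ℕ) : Set V := {x | ∃ i ≤ m, p i = x}

def seg (p : ℕ → V) (i j : ℕ) : Set V := {x | ∃ n, i ≤ n ∧ n ≤ j ∧ p n = x}

/-- a minimum linkage from `(u, v)` to the terminals -/
structure ML (E : V → V → Prop) (T : Set V) (u v : V) (m l : ℕ) (p q : ℕ → V) : Prop where
  p0 : p 0 = u
  pm : p m ∈ T
  pe : ∀ i < m, E (p i) (p (i + 1))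
  pinj : ∀ i ≤ m, ∀ j ≤ m, p i = p j → i = j
  q0 : q 0 = v
  ql : q l ∈ T
  qe : ∀ i < l, E (q i) (q (i + 1))
  qinj : ∀ i ≤ l, ∀ j ≤ l, q i = q j → i = j
  disj : ∀ i ≤ m, ∀ j ≤ l, p i ≠ q j
  min : ∀ P Q : Set V, Disjoint P Q → (∃ t ∈ T, Reach E P u t) → (∃ t ∈ T, Reach E Q v t) →
    (img p m ∪ img q l).ncard ≤ (P ∪ Q).ncard

variable {d : ℕ} {E : V → V → Prop} {T : Set V} {u v : V} {m l : ℕ} {p q : ℕ → V}

lemma ML.symm (h : ML E T u v m l p q) : ML E T v u l m q p :=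
  ⟨h.q0, h.ql, h.qe, h.qinj, h.p0, h.pm, h.pe, h.pinj, fun i hi j hj => (h.disj j hj i hi).symm,
    fun P Q h1 h2 h3 => by
      rw [Set.union_comm, Set.union_comm P]
      exact h.min Q P h1.symm h3 h2⟩

lemma friendly_dichotomy {U : Set V} {s : V} (hU : Friendly E T U) (hs : s ∈ U) :
    (∃ t ∈ T, Reach E U s t) ∨ ∃ D ⊆ U, Cyc E D ∧ s ∈ D := by
  by_cases h : ∃ t ∈ T, Reach E U s t
  · exact Or.inl h
  right
  push Not at h
  refine ⟨{z | Reach E U s z}, fun z hz => hz.right_mem, ?_, Reach.refl hs⟩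
  intro z hz
  obtain ⟨y, hy, he⟩ := hU z hz.right_mem (fun ht => h z ht hz)
  exact ⟨y, Reach.tail hz he hy, he⟩

lemma exists_ML [Finite V] (hB : Blocking E T u v) (hS : Sep E T u v) :
    ∃ (m l : ℕ) (p q : ℕ → V), ML E T u v m l p q := by
  have h0 : ∃ PQ : Set V × Set V, Disjoint PQ.1 PQ.2 ∧ (∃ t ∈ T, Reach E PQ.1 u t) ∧
      (∃ t ∈ T, Reach E PQ.2 v t) := by
    obtain ⟨U0, U1, h1, h2, h3, h4, h5⟩ := hS
    rcases friendly_dichotomy h2 h4 with h6 | ⟨D0, h6, h7, h8⟩ <;>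
      rcases friendly_dichotomy h3 h5 with h9 | ⟨D1, h9, h10, h11⟩
    · exact ⟨(U0, U1), h1, h6, h9⟩
    · obtain ⟨t, ht, hr⟩ := h6
      exact absurd (hr.mono (fun z hz h12 => Set.disjoint_left.1 h1 hz (h9 h12)))
        (hB.b1 D1 ⟨v, h11⟩ h10 u (Or.inl rfl) t ht)
    · obtain ⟨t, ht, hr⟩ := h9
      exact absurd (hr.mono (fun z hz h12 => Set.disjoint_left.1 h1 (h6 h12) hz))
        (hB.b1 D0 ⟨u, h8⟩ h7 v (Or.inr rfl) t ht)
    · exact (hB.b2 D0 D1 (h1.mono h6 h9) h7 h10 h8 h11).elim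
  obtain ⟨⟨P, Q⟩, ⟨h1, ⟨t, ht, h2⟩, ⟨t', ht', h3⟩⟩, hmin⟩ := Set.exists_min_image
    {PQ : Set V × Set V | Disjoint PQ.1 PQ.2 ∧ (∃ t ∈ T, Reach E PQ.1 u t) ∧
      (∃ t ∈ T, Reach E PQ.2 v t)} (fun PQ => (PQ.1 ∪ PQ.2).ncard) (Set.toFinite _) h0
  obtain ⟨m, p, a1, a2, a3, a4, a5⟩ := h2.exists_chain
  obtain ⟨l, q, b1, b2, b3, b4, b5⟩ := h3.exists_chain
  refine ⟨m, l, p, q, a1, a2 ▸ ht, a3, a5, b1, b2 ▸ ht', b3, b5, ?_, ?_⟩
  · intro i hi j hj h
    exact Set.disjoint_left.1 h1 (a4 i hi) (h ▸ b4 j hj)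
  · intro P' Q' c1 c2 c3
    refine le_trans (Set.ncard_le_ncard ?_ (Set.toFinite _)) (hmin (P', Q') ⟨c1, c2, c3⟩)
    rintro z (⟨i, hi, rfl⟩ | ⟨i, hi, rfl⟩)
    · exact Or.inl (a4 i hi)
    · exact Or.inr (b4 i hi)

namespace ML

lemma reach_p (h : ML E T u v m l p q) {U : Set V} (i j : ℕ) (hij : i ≤ j) (hj : j ≤ m)
    (hU : ∀ n, i ≤ n → n ≤ j → p n ∈ U) : Reach E U (p i) (p j) :=
  reach_seg h.pe i j hij hj hU

/-- every nonempty `Cyc` set meets `P`. -/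
lemma meets (h : ML E T u v m l p q) (hB : Blocking E T u v) {D : Set V} (hD : D.Nonempty)
    (hc : Cyc E D) : ∃ i ≤ m, p i ∈ D := by
  by_contra hcon
  push Not at hcon
  apply hB.b1 D hD hc u (Or.inl rfl) (p m) h.pm
  rw [← h.p0]
  exact h.reach_p 0 m (Nat.zero_le _) le_rfl (fun n _ hn => hcon n hn)

lemma lt_of_edge (h : ML E T u v m l p q) (hG : Good d E T) {i : ℕ} (hi : i ≤ m) {y : V}
    (he : E (p i) y) : i < m := by
  rcases Nat.lt_or_ge i m with h1 | h1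
  · exact h1
  · have : i = m := by omega
    subst this
    exact absurd h.pm (hG.term _ _ he)

lemma not_term (h : ML E T u v m l p q) (hG : Good d E T) {i : ℕ} (hi : i < m) : p i ∉ T :=
  hG.term _ _ (h.pe i hi)

/-- detours from `P` back to `P` -/
lemma detour [Finite V] (h : ML E T u v m l p q) (hB : Blocking E T u v) (A : Set V)
    (hA : ∀ z ∈ A, z ∉ img p m ∧ z ∉ img q l) {i k : ℕ} (hi : i ≤ m) (hk : k ≤ m)
    (hdet : E (p i) (p k) ∨ ∃ a b, E (p i) a ∧ Reach E A a b ∧ E b (p k)) :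
    i < k ∧ k ≤ i + 1 + A.ncard := by
  have hgen : ∀ U : Set V, A ⊆ U → p i ∈ U → p k ∈ U →
      ∃ b, Reach E U (p i) b ∧ E b (p k) := by
    intro U h1 h2 h3
    rcases hdet with h4 | ⟨a, b, h4, h5, h6⟩
    · exact ⟨p i, Reach.refl h2, h4⟩
    · exact ⟨b, Reach.head h2 h4 (h5.mono h1), h6⟩
  have hlt : i < k := by
    by_contra hc
    obtain ⟨b, h1, h2⟩ := hgen (seg p k i ∪ A) Set.subset_union_right
      (Or.inl ⟨i, by omega, le_rfl, rfl⟩) (Or.inl ⟨k, le_rfl, by omega, rfl⟩)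
    have h3 : Reach E (seg p k i ∪ A) (p k) (p i) :=
      h.reach_p k i (by omega) hi (fun n h4 h5 => Or.inl ⟨n, h4, h5, rfl⟩)
    obtain ⟨D, h4, h5, h6⟩ := cyc_of_closed (h3.trans h1) h2
    obtain ⟨j, hj, h7⟩ := h.symm.meets hB.symm h5 h6
    rcases h4 h7 with ⟨n, -, h8, h9⟩ | h8
    · exact h.disj n (by omega) j hj h9
    · exact (hA _ h8).2 ⟨j, hj, rfl⟩
  refine ⟨hlt, ?_⟩
  by_contra hc
  let P' : Set V := (seg p 0 i ∪ seg p k m) ∪ A
  obtain ⟨b, h1, h2⟩ := hgen P' Set.subset_union_right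
    (Or.inl (Or.inl ⟨i, by omega, le_rfl, rfl⟩)) (Or.inl (Or.inr ⟨k, le_rfl, hk, rfl⟩))
  have h3 : Reach E P' u (p m) := by
    rw [← h.p0]
    refine ((h.reach_p 0 i (by omega) hi
      (fun n h4 h5 => Or.inl (Or.inl ⟨n, h4, h5, rfl⟩))).trans h1).trans ?_
    refine Reach.head h1.right_mem h2 ?_
    exact h.reach_p k m hk le_rfl (fun n h4 h5 => Or.inl (Or.inr ⟨n, h4, h5, rfl⟩))
  have h4 : Reach E (img q l) v (q l) := by
    rw [← h.q0]
    exact h.symm.reach_p 0 l (by omega) le_rfl (fun n _ h5 => ⟨n, h5, rfl⟩)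
  have h5 : Disjoint P' (img q l) := by
    rw [Set.disjoint_left]
    rintro z ((⟨n, -, h6, rfl⟩ | ⟨n, -, h6, rfl⟩) | h6) ⟨j, hj, h7⟩
    · exact h.disj n (by omega) j hj h7.symm
    · exact h.disj n (by omega) j hj h7.symm
    · exact (hA z h6).2 ⟨j, hj, h7⟩
  have h6 := h.min P' (img q l) h5 ⟨_, h.pm, h3⟩ ⟨_, h.ql, h4⟩
  let R : Set V := p '' (Set.Ioo i k)
  have h7 : R.ncard = k - i - 1 := by
    rw [Set.InjOn.ncard_image]
    · rw [← Finset.coe_Ioo, Set.ncard_coe_finset, Nat.card_Ioo]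
    · intro a ha b hb hab
      exact h.pinj a (by have := ha.2; omega) b (by have := hb.2; omega) hab
  have h8 : R ⊆ img p m ∪ img q l := by
    rintro z ⟨n, hn, rfl⟩
    exact Or.inl ⟨n, by have := hn.2; omega, rfl⟩
  have h9 : P' ∪ img q l ⊆ ((img p m ∪ img q l) \ R) ∪ A := by
    rintro z (((⟨n, -, h6, rfl⟩ | ⟨n, h6, h6', rfl⟩) | h6) | ⟨j, hj, rfl⟩)
    · refine Or.inl ⟨Or.inl ⟨n, by omega, rfl⟩, ?_⟩
      rintro ⟨n', hn', h10⟩
      have := h.pinj n' (by have := hn'.2; omega) n (by omega) h10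
      have := hn'.1
      omega
    · refine Or.inl ⟨Or.inl ⟨n, by omega, rfl⟩, ?_⟩
      rintro ⟨n', hn', h10⟩
      have := h.pinj n' (by have := hn'.2; omega) n (by omega) h10
      have := hn'.2
      omega
    · exact Or.inr h6
    · refine Or.inl ⟨Or.inr ⟨j, hj, rfl⟩, ?_⟩
      rintro ⟨n', hn', h10⟩
      exact h.disj n' (by have := hn'.2; omega) j hj h10
  have h10 := Set.ncard_le_ncard h9 (Set.toFinite _)
  have h11 := Set.ncard_union_le ((img p m ∪ img q l) \ R) A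
  have h12 := Set.ncard_sdiff_add_ncard_of_subset h8 (Set.toFinite _)
  omega

lemma chord [Finite V] (h : ML E T u v m l p q) (hB : Blocking E T u v) {i k : ℕ} (hi : i ≤ m)
    (hk : k ≤ m) (he : E (p i) (p k)) : k = i + 1 := by
  have := h.detour hB ∅ (by simp) hi hk (Or.inl he)
  simp only [Set.ncard_empty] at this
  omega

lemma one_step [Finite V] (h : ML E T u v m l p q) (hB : Blocking E T u v) {z : V}
    (hz : z ∉ img p m) (hz' : z ∉ img q l) {i : ℕ} (hi : i ≤ m) (he : E (p i) z) {y : V}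
    (he' : E z y) (hy : y ∈ img p m) : y = p (i + 1) ∨ y = p (i + 2) := by
  obtain ⟨k, hk, rfl⟩ := hy
  have := h.detour hB {z} (by simpa using ⟨hz, hz'⟩) hi hk
    (Or.inr ⟨z, z, he, Reach.refl rfl, he'⟩)
  simp only [Set.ncard_singleton] at this
  have h1 : k = i + 1 ∨ k = i + 2 := by omega
  rcases h1 with rfl | rfl
  · exact Or.inl rfl
  · exact Or.inr rfl

lemma two_step [Finite V] (h : ML E T u v m l p q) (hB : Blocking E T u v) {z z' : V}
    (hz : z ∉ img p m) (hz' : z ∉ img q l) (hw : z' ∉ img p m) (hw' : z' ∉ img q l)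
    {i : ℕ} (hi : i ≤ m) (he : E (p i) z) (hzz : E z z') {y : V}
    (he' : E z' y) (hy : y ∈ img p m) : y = p (i + 1) ∨ y = p (i + 2) ∨ y = p (i + 3) := by
  obtain ⟨k, hk, rfl⟩ := hy
  have h0 := h.detour hB {z, z'} (by
    rintro w (rfl | rfl)
    · exact ⟨hz, hz'⟩
    · exact ⟨hw, hw'⟩) hi hk
    (Or.inr ⟨z, z', he, Reach.tail (b := z) (Reach.refl (by simp)) hzz (by simp), he'⟩)
  have h2 : ({z, z'} : Set V).ncard ≤ 2 := by
    have := Set.ncard_insert_le z ({z'} : Set V)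
    simpa using this
  have h1 : k = i + 1 ∨ k = i + 2 ∨ k = i + 3 := by omega
  rcases h1 with rfl | rfl | rfl
  · exact Or.inl rfl
  · exact Or.inr (Or.inl rfl)
  · exact Or.inr (Or.inr rfl)

lemma cross [Finite V] (h : ML E T u v m l p q) {i j : ℕ} (hi : i ≤ m) (hi1 : 1 ≤ i) (hj : j ≤ l)
    (hj2 : 2 ≤ j) (h1 : E u (q j)) (h2 : E v (p i)) : False := by
  let P' : Set V := insert u (seg q j l)
  let Q' : Set V := insert v (seg p i m)
  have h3 : Reach E P' u (q l) := Reach.head (Or.inl rfl) h1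
    (h.symm.reach_p j l hj le_rfl (fun n h4 h5 => Or.inr ⟨n, h4, h5, rfl⟩))
  have h4 : Reach E Q' v (p m) := Reach.head (Or.inl rfl) h2
    (h.reach_p i m hi le_rfl (fun n h4 h5 => Or.inr ⟨n, h4, h5, rfl⟩))
  have h5 : Disjoint P' Q' := by
    rw [Set.disjoint_left]
    rintro z (rfl | ⟨n, h6, h7, rfl⟩) (h8 | ⟨n', h8, h9, h10⟩)
    · exact h.disj 0 (by omega) 0 (by omega) (by rw [h.p0, h.q0, h8])
    · have := h.pinj n' h9 0 (by omega) (by rw [h.p0, h10])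
      omega
    · have := h.qinj n h7 0 (by omega) (by rw [h.q0, h8])
      omega
    · exact h.disj n' h9 n h7 h10
  have h6 := h.min P' Q' h5 ⟨_, h.ql, h3⟩ ⟨_, h.pm, h4⟩
  have h7 : P' ∪ Q' ⊂ img p m ∪ img q l := by
    constructor
    · rintro z ((rfl | ⟨n, -, h7, rfl⟩) | (rfl | ⟨n, -, h7, rfl⟩))
      · exact Or.inl ⟨0, by omega, h.p0⟩
      · exact Or.inr ⟨n, h7, rfl⟩
      · exact Or.inr ⟨0, by omega, h.q0⟩
      · exact Or.inl ⟨n, h7, rfl⟩
    · intro h8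
      rcases h8 (a := q 1) (Or.inr ⟨1, by omega, rfl⟩) with
        (h9 | ⟨n, h9, h10, h11⟩) | (h9 | ⟨n, h9, h10, h11⟩)
      · exact h.disj 0 (by omega) 1 (by omega) (by rw [h.p0, h9])
      · have := h.qinj n h10 1 (by omega) h11
        omega
      · have := h.qinj 1 (by omega) 0 (by omega) (by rw [h.q0, h9])
        omega
      · exact h.disj n h10 1 (by omega) h11
  have := Set.ncard_lt_ncard h7 (Set.toFinite _)
  omega

lemma friendly_img (h : ML E T u v m l p q) {x : V} (hx : x ∈ img p m) (hxT : x ∉ T) :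
    ∃ y ∈ img p m, E x y := by
  obtain ⟨i, hi, rfl⟩ := hx
  have h1 : i < m := by
    rcases Nat.lt_or_ge i m with h1 | h1
    · exact h1
    · have : i = m := by omega
      subst this
      exact absurd h.pm hxT
  exact ⟨p (i + 1), ⟨i + 1, h1, rfl⟩, h.pe i h1⟩

lemma disjoint_img (h : ML E T u v m l p q) : Disjoint (img p m) (img q l) := by
  rw [Set.disjoint_left]
  rintro z ⟨i, hi, rfl⟩ ⟨j, hj, h1⟩
  exact h.disj i hi j hj h1.symm

end ML

/-- the in-neighbourhood of `z` contains a cycle -/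
def InCyc (E : V → V → Prop) (z : V) : Prop := ∃ D : Set V, D.Nonempty ∧ Cyc E D ∧ ∀ a ∈ D, E a z

lemma inCyc_of_dom [Finite V] {z : V} (h1 : ∃ a, E a z) (h2 : ∀ a, E a z → ∃ w, E w a ∧ E w z) :
    InCyc E z := by
  obtain ⟨D, h3, h4, h5, -⟩ := cyc_of_in (E := E) (M := {a | E a z}) h1 (fun a ha => by
    obtain ⟨w, h6, h7⟩ := h2 a ha
    exact ⟨w, h7, h6⟩)
  exact ⟨D, h4, h5, fun a ha => h3 ha⟩

lemma ML.in_nbr (h : ML E T u v m l p q) (hB : Blocking E T u v) {z : V} (hz : InCyc E z) :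
    ∃ i ≤ m, E (p i) z := by
  obtain ⟨D, h1, h2, h3⟩ := hz
  obtain ⟨i, hi, h4⟩ := h.meets hB h1 h2
  exact ⟨i, hi, h3 _ h4⟩

/-- a vertex off the linkage with an in-neighbourhood cycle has out-neighbours off the linkage -/
lemma ML.off_nbr [Finite V] (h : ML E T u v m l p q) (hG : Good d E T) (hB : Blocking E T u v)
    {z : V} (hzT : z ∉ T) (hz : z ∉ img p m) (hz' : z ∉ img q l) (hc : InCyc E z)
    (F : Finset V) (hF : F.card + 5 ≤ d) :
    ∃ y, E z y ∧ y ∉ F ∧ y ∉ img p m ∧ y ∉ img q l := by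
  classical
  obtain ⟨i, hi, h1⟩ := h.in_nbr hB hc
  obtain ⟨j, hj, h2⟩ := h.symm.in_nbr hB.symm hc
  obtain ⟨y, h3, h4⟩ := hG.nbr hzT (F ∪ {p (i + 1), p (i + 2), q (j + 1), q (j + 2)}) (by
    have h5 := Finset.card_union_le F {p (i + 1), p (i + 2), q (j + 1), q (j + 2)}
    have h6 : ({p (i + 1), p (i + 2), q (j + 1), q (j + 2)} : Finset V).card ≤ 4 :=
      Finset.card_le_four
    omega)
  simp only [Finset.mem_union, Finset.mem_insert, Finset.mem_singleton, not_or] at h4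
  refine ⟨y, h3, h4.1, fun h5 => ?_, fun h5 => ?_⟩
  · rcases h.one_step hB hz hz' hi h1 h3 h5 with h6 | h6
    · exact h4.2.1 h6
    · exact h4.2.2.1 h6
  · rcases h.symm.one_step hB.symm hz' hz hj h2 h3 h5 with h6 | h6
    · exact h4.2.2.2.1 h6
    · exact h4.2.2.2.2 h6

end Pool.Agent.Work.MP_97603a_co
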