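import Mathlib
import Pool.Agent.Work.MP_97603a_co.Link

namespace Pool.Agent.Work.MP_97603a_co

variable {V : Type} {d : ℕ} {E : V → V → Prop} {T : Set V} {u v : V} {m l : ℕ} {p q : ℕ → V}

/-- a nonempty finite set without `Cyc` subsets has a sink -/
lemma ML.sink (h : ML E T u v m l p q) (hB : Blocking E T u v) {Z : Set V} (hZ : Z.Nonempty)
    (hP : ∀ z ∈ Z, z ∉ img p m) : ∃ z ∈ Z, ∀ y, E z y → y ∉ Z := by
  by_contra hc
  push Not at hc
  obtain ⟨i, hi, h1⟩ := h.meets hB hZ (fun z hz => by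
    obtain ⟨y, h1, h2⟩ := hc z hz
    exact ⟨y, h2, h1⟩)
  exact hP _ h1 ⟨i, hi, rfl⟩

lemma pair_eq {x y u v : V} (huv : u ≠ v) (hu : u ∈ ({x, y} : Set V)) (hv : v ∈ ({x, y} : Set V)) :
    (x = u ∧ y = v) ∨ (x = v ∧ y = u) := by
  rcases hu with rfl | rfl <;> rcases hv with rfl | rfl
  · exact absurd rfl huv
  · exact Or.inl ⟨rfl, rfl⟩
  · exact Or.inr ⟨rfl, rfl⟩
  · exact absurd rfl huv

lemma digon_cyc {x y : V} (hxy : E x y) (hyx : E y x) : Cyc E {x, y} := by
  rintro z (rfl | rfl)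
  · exact ⟨y, Or.inr rfl, hxy⟩
  · exact ⟨x, Or.inl rfl, hyx⟩

theorem small_terminals [Finite V] (hd : 7 ≤ d) {n0 : ℕ} (IH : IHyp V d n0) (n : ℕ) :
    ∀ (E : V → V → Prop) (T : Set V) (u v : V) (K : Finset V), Tᶜ.ncard = n → n < n0 →
      Good d E T → u ≠ v → Blocking E T u v → K.card + 5 ≤ d →
      (∀ a b, E a b → b ∈ T → b ∈ K) → u ∈ T := by
  classical
  induction n using Nat.strong_induction_on with
  | _ n ih =>
  intro E T u v K hn hn0 hG huv hB hK hKT
  by_contra huT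
  obtain ⟨m, l, p, q, h⟩ := exists_ML hB (IH E T hG (by omega) u v huv)
  have hnd : ∀ x y, E x y → E y x → (x = u ∧ y = v) ∨ (x = v ∧ y = u) := by
    intro x y hxy hyx
    obtain ⟨X', h1, h2, h3, h4⟩ := cut_restr hB {x, y}
      (hB.b1 _ ⟨x, Or.inl rfl⟩ (digon_cyc hxy hyx))
    have h5 : ∃ z, z ∈ X' := by
      by_contra hc
      push Not at hc
      apply h2 u (Or.inl rfl) (p m) h.pm
      rw [← h.p0]
      exact h.reach_p 0 m (Nat.zero_le _) le_rfl (fun n _ _ => hc _)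
    obtain ⟨z, hz⟩ := h5
    have hzT : z ∉ T := by
      rcases h1 hz with rfl | rfl
      · exact hG.term _ _ hxy
      · exact hG.term _ _ hyx
    have h6 : (Av E u v X')ᶜᶜ.ncard < n := by
      rw [compl_compl, ← hn]
      apply Set.ncard_lt_ncard _ (Set.toFinite _)
      exact ⟨h3, fun h7 => Av.not_mem (h7 (a := z) hzT) hz⟩
    have h7 : ∀ a b, restr E (Av E u v X') a b → b ∈ (Av E u v X')ᶜ →
        b ∈ ({x, y} : Finset V) := by
      intro a b h8 h9
      have h10 : b ∈ X' := by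
        by_contra hc
        exact h9 (Av.step h8.2 h8.1 hc)
      simpa using h1 h10
    have h8 : ({x, y} : Finset V).card + 5 ≤ d := by
      have : ({x, y} : Finset V).card ≤ 2 := Finset.card_le_two
      omega
    have h9 := ih _ h6 _ _ u v {x, y} rfl (by omega) (hG.restr h3) huv h4 h8 h7
    have h10 := ih _ h6 _ _ v u {x, y} rfl (by omega) (hG.restr h3) huv.symm h4.symm h8 h7
    apply pair_eq huv
    · by_contra hc
      exact h9 (Av.src (Or.inl rfl) (fun h11 => hc (h1 h11)))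
    · by_contra hc
      exact h10 (Av.src (Or.inr rfl) (fun h11 => hc (h1 h11)))
  have hdom : ∀ x y, E x y → ¬ (x = u ∧ y ∈ T) → ¬ (x = u ∧ y = v) → ¬ (x = v ∧ y = u) →
      ∃ w, E w x ∧ E w y := by
    intro x y hxy h1 h2 h3
    by_contra hc
    push Not at hc
    have hyx : ¬ E y x := fun h4 => by
      rcases hnd x y hxy h4 with h5 | h5
      · exact h2 h5
      · exact h3 h5
    have hne : y ≠ x := fun h4 => hG.irrefl x (h4 ▸ hxy)
    have h4 := ih _ (hn ▸ ncard_ctr (hG.term _ _ hxy)) (ctr E x y) (insert x T) (phi x y u)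
      (phi x y v) K rfl (by have := ncard_ctr (hG.term _ _ hxy); omega) (hG.ctr hxy hyx hc)
      (phi_inj huv h2 h3) (hB.ctr hxy hne) hK (by
        rintro a b ⟨-, h5, h6 | ⟨-, h6, -⟩⟩ (h7 | h7)
        · exact absurd h7 h5
        · exact hKT a b h6 h7
        · exact absurd h7 h5
        · subst h6
          exact hKT x b hxy h7)
    rcases h4 with h4 | h4
    · exact phi_ne hne u h4
    · unfold phi at h4
      by_cases h5 : u = x
      · simp only [h5, if_true] at h4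
        exact h1 ⟨h5.symm, h4⟩
      · simp only [h5, if_false] at h4
        exact huT h4
  have hall : ∀ z, z ∉ T → z ∈ img p m ∨ z ∈ img q l := by
    by_contra hc
    push Not at hc
    obtain ⟨z, ⟨h1, h2, h3⟩, h4⟩ := h.sink hB (Z := {z | z ∉ T ∧ z ∉ img p m ∧ z ∉ img q l})
      hc (fun z hz => hz.2.1)
    have hzu : z ≠ u := fun h5 => h2 ⟨0, Nat.zero_le _, by rw [h.p0, h5]⟩
    have hzv : z ≠ v := fun h5 => h3 ⟨0, Nat.zero_le _, by rw [h.q0, h5]⟩
    have h5 : InCyc E z := by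
      apply inCyc_of_dom
      · obtain ⟨y, h5, -⟩ := hG.nbr h1 ∅ (by simp; omega)
        obtain ⟨w, h6, -⟩ := hdom z y h5 (fun h => hzu h.1) (fun h => hzu h.1) (fun h => hzv h.1)
        exact ⟨w, h6⟩
      · intro a ha
        exact hdom a z ha (fun h => h1 h.2) (fun h => hzv h.2) (fun h => hzu h.2)
    obtain ⟨y, h6, h7, h8, h9⟩ := h.off_nbr hG hB h1 h2 h3 h5 K hK
    exact h4 y h6 ⟨fun h10 => h7 (hKT z y h6 h10), h8, h9⟩
  obtain ⟨y, h1, h2⟩ := hG.nbr huT (K ∪ {p 1, q 0, q 1}) (by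
    have h5 := Finset.card_union_le K {p 1, q 0, q 1}
    have h6 : ({p 1, q 0, q 1} : Finset V).card ≤ 3 := Finset.card_le_three
    omega)
  simp only [Finset.mem_union, Finset.mem_insert, Finset.mem_singleton, not_or] at h2
  rcases hall y (fun h3 => h2.1 (hKT u y h1 h3)) with ⟨k, hk, rfl⟩ | ⟨j, hj, rfl⟩
  · have := h.chord hB (Nat.zero_le _) hk (by rw [h.p0]; exact h1)
    exact h2.2.1 (by rw [this])
  have hj2 : 2 ≤ j := by
    by_contra hc
    have : j = 0 ∨ j = 1 := by omega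
    rcases this with rfl | rfl
    · exact h2.2.2.1 rfl
    · exact h2.2.2.2 rfl
  have hvT : v ∉ T := by
    rw [← h.q0]
    exact h.symm.not_term hG (by omega)
  obtain ⟨y, h3, h4⟩ := hG.nbr hvT (K ∪ {q 1, p 0}) (by
    have h5 := Finset.card_union_le K {q 1, p 0}
    have h6 : ({q 1, p 0} : Finset V).card ≤ 2 := Finset.card_le_two
    omega)
  simp only [Finset.mem_union, Finset.mem_insert, Finset.mem_singleton, not_or] at h4
  rcases hall y (fun h5 => h4.1 (hKT v y h3 h5)) with ⟨i, hi, rfl⟩ | ⟨k, hk, rfl⟩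
  · have hi1 : 1 ≤ i := by
      by_contra hc
      have : i = 0 := by omega
      subst this
      exact h4.2.2 rfl
    exact h.cross hi hi1 hj hj2 h1 h3
  · have := h.symm.chord hB.symm (Nat.zero_le _) hk (by rw [h.q0]; exact h3)
    exact h4.2.1 (by rw [this])

/-- small cuts of a blocking instance contain the sources -/
theorem small_cut [Finite V] (hd : 7 ≤ d) {n0 : ℕ} (IH : IHyp V d n0) (hn : Tᶜ.ncard < n0)
    (hG : Good d E T) (huv : u ≠ v) (hB : Blocking E T u v) (X : Finset V) (hX : X.card + 5 ≤ d)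
    (hcut : ∀ s, (s = u ∨ s = v) → ∀ t ∈ T, ¬ Reach E (↑X)ᶜ s t) : u ∈ X := by
  obtain ⟨X', h1, -, h3, h4⟩ := cut_restr hB X hcut
  have h5 : (Av E u v X')ᶜᶜ.ncard < n0 := by
    rw [compl_compl]
    exact lt_of_le_of_lt (Set.ncard_le_ncard h3 (Set.toFinite _)) hn
  have h6 := small_terminals hd IH _ _ _ u v X rfl h5 (hG.restr h3) huv h4 hX (by
    intro a b h8 h9
    have h10 : b ∈ X' := by
      by_contra hc
      exact h9 (Av.step h8.2 h8.1 hc)
    exact h1 h10)
  by_contra hc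
  exact h6 (Av.src (Or.inl rfl) (fun h11 => hc (h1 h11)))

/-- two pebbles in an acyclic digraph -/
lemma pebble [Finite V] (Y : Set V) (hac : ∀ D ⊆ Y, D.Nonempty → ¬ Cyc E D)
    (h2 : ∀ z ∈ Y, z ∉ T → ∀ b, ∃ y ∈ Y, E z y ∧ y ≠ b) (hT : ∀ x y, E x y → x ∉ T) (n : ℕ) :
    ∀ a b, a ∈ Y → b ∈ Y → a ≠ b →
      {z | Reach E Y a z}.ncard + {z | Reach E Y b z}.ncard ≤ n →
      ∃ A B : Set V, Disjoint A B ∧ a ∈ A ∧ b ∈ B ∧ Friendly E T A ∧ Friendly E T B ∧
        A ⊆ {z | Reach E Y a z} ∧ B ⊆ {z | Reach E Y b z} := by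
  induction n with
  | zero =>
    intro a b ha _ _ hn
    have : 0 < {z | Reach E Y a z}.ncard :=
      (Set.ncard_pos (Set.toFinite _)).2 ⟨a, Reach.refl ha⟩
    omega
  | succ n ih =>
    have key : ∀ a b, a ∈ Y → b ∈ Y → a ∉ T → ¬ Reach E Y b a →
        {z | Reach E Y a z}.ncard + {z | Reach E Y b z}.ncard ≤ n + 1 →
        ∃ A B : Set V, Disjoint A B ∧ a ∈ A ∧ b ∈ B ∧ Friendly E T A ∧ Friendly E T B ∧
          A ⊆ {z | Reach E Y a z} ∧ B ⊆ {z | Reach E Y b z} := by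
      intro a b ha hb haT hba hn
      obtain ⟨a', h1, h3, h4⟩ := h2 a ha haT b
      have h5 : {z | Reach E Y a' z} ⊂ {z | Reach E Y a z} := by
        refine ⟨fun z hz => Reach.head ha h3 hz, fun h5 => ?_⟩
        obtain ⟨D, h6, h7, h8⟩ := cyc_of_closed (h5 (a := a) (Reach.refl ha)) h3
        exact hac D h6 h7 h8
      have h6 := Set.ncard_lt_ncard h5 (Set.toFinite _)
      obtain ⟨A, B, c1, c2, c3, c4, c5, c6, c7⟩ := ih a' b h1 hb h4 (by omega)
      refine ⟨insert a A, B, ?_, Or.inl rfl, c3, ?_, c5, ?_, c7⟩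
      · rw [Set.disjoint_left] at c1 ⊢
        rintro z (rfl | hz) hzB
        · exact hba (c7 hzB)
        · exact c1 hz hzB
      · rintro z (rfl | hz) hzT
        · exact ⟨a', Or.inr c2, h3⟩
        · obtain ⟨y, h7, h8⟩ := c4 z hz hzT
          exact ⟨y, Or.inr h7, h8⟩
      · rintro z (rfl | hz)
        · exact Reach.refl ha
        · exact h5.1 (c6 hz)
    intro a b ha hb hab hn
    by_cases h3 : a ∉ T ∧ ¬ Reach E Y b a
    · exact key a b ha hb h3.1 h3.2 hn
    by_cases h4 : b ∉ T ∧ ¬ Reach E Y a b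
    · obtain ⟨A, B, c1, c2, c3, c4, c5, c6, c7⟩ := key b a hb ha h4.1 h4.2 (by omega)
      exact ⟨B, A, c1.symm, c3, c2, c5, c4, c7, c6⟩
    push Not at h3 h4
    have h5 : ∀ a b, a ≠ b → Reach E Y a b → a ∉ T := by
      intro a b hab h
      rcases h.cases_head with h5 | ⟨c, h5, -⟩
      · exact absurd h5 hab
      · exact hT _ _ h5
    by_cases haT : a ∈ T <;> by_cases hbT : b ∈ T
    · refine ⟨{a}, {b}, by simpa using hab, rfl, rfl, ?_, ?_, ?_, ?_⟩
      · rintro z rfl hz; exact absurd haT hz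
      · rintro z rfl hz; exact absurd hbT hz
      · rintro z rfl; exact Reach.refl ha
      · rintro z rfl; exact Reach.refl hb
    · exact absurd haT (h5 a b hab (h4 hbT))
    · exact absurd hbT (h5 b a hab.symm (h3 haT))
    · exfalso
      rcases (h4 hbT).cases_tail with h6 | ⟨c, h6, h7⟩
      · exact hab h6
      · obtain ⟨D, h8, h9, h10⟩ := cyc_of_closed ((h3 haT).trans h6) h7
        exact hac D h8 h9 h10

end Pool.Agent.Work.MP_97603a_co
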