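import Mathlib
import Pool.Agent.Work.MP_97603a_co.Block

namespace Pool.Agent.Work.MP_97603a_co

variable {V : Type} {d : ℕ} {E : V → V → Prop} {T : Set V} {u v : V} {m l : ℕ} {p q : ℕ → V}

lemma marked_one [Finite V] (hd : 8 ≤ d) (h : ML E T u v m l p q) (hG : Good d E T)
    (hB : Blocking E T u v) {a b : V} (ha : a ∈ img p m) (hb : b ∉ img p m)
    (hgood : ∀ z, z ∉ T → z ∉ img p m → z ∉ img q l →
      InCyc E z ∨ (z = b ∧ E a b) ∨ (z = a ∧ E b a)) : Sep2 E T u v a b := by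
  classical
  refine ⟨img p m, (img p m)ᶜ, disjoint_compl_right, fun x hx hxT => h.friendly_img hx hxT, ?_,
    ⟨0, Nat.zero_le _, h.p0⟩, ?_, Or.inl ⟨ha, hb⟩⟩
  · intro z hz hzT
    by_cases hzQ : z ∈ img q l
    · obtain ⟨y, h1, h2⟩ := h.symm.friendly_img hzQ hzT
      exact ⟨y, fun h3 => Set.disjoint_left.1 h.disjoint_img h3 h1, h2⟩
    rcases hgood z hzT hz hzQ with h1 | ⟨rfl, h1⟩ | ⟨rfl, -⟩
    · obtain ⟨y, h2, -, h3, -⟩ := h.off_nbr hG hB hzT hz hzQ h1 ∅ (by simp; omega)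
      exact ⟨y, h3, h2⟩
    · obtain ⟨i, hi, rfl⟩ := ha
      obtain ⟨y, h2, h3⟩ := hG.nbr hzT {p (i + 1), p (i + 2)} (by
        have : ({p (i + 1), p (i + 2)} : Finset V).card ≤ 2 := Finset.card_le_two
        omega)
      simp only [Finset.mem_insert, Finset.mem_singleton, not_or] at h3
      refine ⟨y, fun h4 => ?_, h2⟩
      rcases h.one_step hB hz hzQ hi h1 h2 h4 with h5 | h5
      · exact h3.1 h5
      · exact h3.2 h5
    · exact absurd ha hz
  · intro h1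
    exact Set.disjoint_left.1 h.disjoint_img h1 ⟨0, Nat.zero_le _, h.q0⟩

lemma marked_none [Finite V] (hd : 8 ≤ d) (h : ML E T u v m l p q) (hG : Good d E T)
    (hB : Blocking E T u v) {a b : V} (hab : a ≠ b) (ha : a ∉ img p m) (hb : b ∉ img p m)
    (ha' : a ∉ img q l) (hb' : b ∉ img q l) (hnd : ¬ (E a b ∧ E b a))
    (hgood : ∀ z, z ∉ T → z ∉ img p m → z ∉ img q l →
      InCyc E z ∨ (z = b ∧ E a b) ∨ (z = a ∧ E b a)) : Sep2 E T u v a b := by
  classical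
  have key : ∀ a b : V, a ∉ img p m → b ∉ img p m → a ∉ img q l → b ∉ img q l → InCyc E a →
      E a b → b ∉ T → ∀ c, ∃ y ∈ (img p m ∪ img q l)ᶜ, E b y ∧ y ≠ c := by
    intro a b ha hb ha' hb' h1 h2 hbT c
    obtain ⟨i, hi, h3⟩ := h.in_nbr hB h1
    obtain ⟨j, hj, h4⟩ := h.symm.in_nbr hB.symm h1
    obtain ⟨y, h5, h6⟩ := hG.nbr hbT (insert c ({p (i + 1), p (i + 2), p (i + 3)} ∪
      {q (j + 1), q (j + 2), q (j + 3)})) (by
        have c1 := Finset.card_insert_le c ({p (i + 1), p (i + 2), p (i + 3)} ∪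
          {q (j + 1), q (j + 2), q (j + 3)})
        have c2 := Finset.card_union_le ({p (i + 1), p (i + 2), p (i + 3)} : Finset V)
          {q (j + 1), q (j + 2), q (j + 3)}
        have c3 : ({p (i + 1), p (i + 2), p (i + 3)} : Finset V).card ≤ 3 := Finset.card_le_three
        have c4 : ({q (j + 1), q (j + 2), q (j + 3)} : Finset V).card ≤ 3 := Finset.card_le_three
        omega)
    simp only [Finset.mem_insert, Finset.mem_union, Finset.mem_singleton] at h6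
    refine ⟨y, ?_, h5, fun h7 => h6 (Or.inl h7)⟩
    rintro (h7 | h7)
    · exact h6 (Or.inr (Or.inl (h.two_step hB ha ha' hb hb' hi h3 h2 h5 h7)))
    · exact h6 (Or.inr (Or.inr (h.symm.two_step hB.symm ha' ha hb' hb hj h4 h2 h5 h7)))
  obtain ⟨A, B, c1, c2, c3, c4, c5, c6, c7⟩ := pebble (E := E) (T := T) (img p m ∪ img q l)ᶜ
    (by
      intro D h1 h2 h3
      obtain ⟨i, hi, h4⟩ := h.meets hB h2 h3
      exact h1 h4 (Or.inl ⟨i, hi, rfl⟩))
    (by
      intro z hz hzT c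
      have hz1 : z ∉ img p m := fun h1 => hz (Or.inl h1)
      have hz2 : z ∉ img q l := fun h1 => hz (Or.inr h1)
      rcases hgood z hzT hz1 hz2 with h1 | ⟨rfl, h1⟩ | ⟨rfl, h1⟩
      · obtain ⟨y, h2, h3, h4, h5⟩ := h.off_nbr hG hB hzT hz1 hz2 h1 {c} (by simp; omega)
        exact ⟨y, fun h6 => h6.elim h4 h5, h2, by simpa using h3⟩
      · rcases hgood a (hG.term _ _ h1) ha ha' with h2 | ⟨h2, -⟩ | ⟨-, h2⟩
        · exact key a z ha hb ha' hb' h2 h1 hzT c
        · exact absurd h2 hab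
        · exact absurd ⟨h1, h2⟩ hnd
      · rcases hgood b (hG.term _ _ h1) hb hb' with h2 | ⟨-, h2⟩ | ⟨h2, -⟩
        · exact key b z hb ha hb' ha' h2 h1 hzT c
        · exact absurd ⟨h2, h1⟩ hnd
        · exact absurd h2.symm hab)
    hG.term _ a b (fun h1 => h1.elim ha ha') (fun h1 => h1.elim hb hb') hab le_rfl
  have hA : ∀ z ∈ A, z ∉ img p m ∪ img q l := fun z hz => (c6 hz).right_mem
  have hB' : ∀ z ∈ B, z ∉ img p m ∪ img q l := fun z hz => (c7 hz).right_mem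
  refine ⟨img p m ∪ A, img q l ∪ B, ?_, ?_, ?_, Or.inl ⟨0, Nat.zero_le _, h.p0⟩,
    Or.inl ⟨0, Nat.zero_le _, h.q0⟩, Or.inl ⟨Or.inr c2, Or.inr c3⟩⟩
  · rw [Set.disjoint_left]
    rintro z (h1 | h1) (h2 | h2)
    · exact Set.disjoint_left.1 h.disjoint_img h1 h2
    · exact hB' z h2 (Or.inl h1)
    · exact hA z h1 (Or.inr h2)
    · exact Set.disjoint_left.1 c1 h1 h2
  · rintro z (hz | hz) hzT
    · obtain ⟨y, h1, h2⟩ := h.friendly_img hz hzT
      exact ⟨y, Or.inl h1, h2⟩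
    · obtain ⟨y, h1, h2⟩ := c4 z hz hzT
      exact ⟨y, Or.inr h1, h2⟩
  · rintro z (hz | hz) hzT
    · obtain ⟨y, h1, h2⟩ := h.symm.friendly_img hz hzT
      exact ⟨y, Or.inl h1, h2⟩
    · obtain ⟨y, h1, h2⟩ := c5 z hz hzT
      exact ⟨y, Or.inr h1, h2⟩

lemma ML.seg_step (h : ML E T u v m l p q) {i j : ℕ} (hj : j ≤ m) {z : V} (hz : z ∈ seg p i j) :
    z = p j ∨ ∃ y ∈ seg p i j, E z y := by
  obtain ⟨n, h1, h2, rfl⟩ := hz
  rcases Nat.lt_or_ge n j with h3 | h3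
  · exact Or.inr ⟨p (n + 1), ⟨n + 1, by omega, by omega, rfl⟩, h.pe n (by omega)⟩
  · exact Or.inl (by rw [show n = j by omega])

lemma marked_both [Finite V] (hd : 8 ≤ d) (h : ML E T u v m l p q) (hG : Good d E T)
    (hB : Blocking E T u v) {i j : ℕ} (hij : i < j) (hj : j ≤ m)
    (hgood : ∀ z, z ∉ T → z ∉ img p m → z ∉ img q l → InCyc E z) :
    Sep2 E T u v (p i) (p j) := by
  classical
  set Y : Set V := (img p m ∪ img q l)ᶜ with hY
  have hYf : ∀ z ∈ Y, z ∉ T → ∃ y ∈ Y, E z y := by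
    intro z hz hzT
    have hz1 : z ∉ img p m := fun h1 => hz (Or.inl h1)
    have hz2 : z ∉ img q l := fun h1 => hz (Or.inr h1)
    obtain ⟨y, h2, -, h4, h5⟩ := h.off_nbr hG hB hzT hz1 hz2 (hgood z hzT hz1 hz2) ∅
      (by simp; omega)
    exact ⟨y, fun h6 => h6.elim h4 h5, h2⟩
  obtain ⟨k, rfl⟩ : ∃ k, j = k + 1 := ⟨j - 1, by omega⟩
  have hpP : ∀ a b z, b ≤ m → z ∈ seg p a b → z ∈ img p m := by
    rintro a b z hb ⟨n, -, h1, rfl⟩
    exact ⟨n, by omega, rfl⟩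
  have hqQ : ∀ a b z, b ≤ l → z ∈ seg q a b → z ∈ img q l := by
    rintro a b z hb ⟨n, -, h1, rfl⟩
    exact ⟨n, by omega, rfl⟩
  have hpp : ∀ z, z ∈ seg p 0 k → z ∈ seg p (k + 1) m → False := by
    rintro z ⟨n, -, h1, rfl⟩ ⟨n', h2, h3, h4⟩
    have := h.pinj n' h3 n (by omega) h4
    omega
  have hPQ : ∀ z, z ∈ img p m → z ∈ img q l → False := fun z h1 h2 =>
    Set.disjoint_left.1 h.disjoint_img h1 h2
  have htail : ∀ z ∈ seg p (k + 1) m, z ∉ T → ∃ y ∈ seg p (k + 1) m, E z y := by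
    intro z hz hzT
    rcases h.seg_step le_rfl hz with rfl | h1
    · exact absurd h.pm hzT
    · exact h1
  by_cases h1 : ∃ y ∈ Y, E (p k) y
  · obtain ⟨y, hy, h1⟩ := h1
    refine ⟨seg p 0 k ∪ Y, img q l ∪ seg p (k + 1) m, ?_, ?_, ?_,
      Or.inl ⟨0, le_rfl, Nat.zero_le _, h.p0⟩, Or.inl ⟨0, Nat.zero_le _, h.q0⟩,
      Or.inl ⟨Or.inl ⟨i, Nat.zero_le _, by omega, rfl⟩, Or.inr ⟨k + 1, le_rfl, hj, rfl⟩⟩⟩
    · rw [Set.disjoint_left]
      rintro z (h2 | h2) (h3 | h3)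
      · exact hPQ z (hpP _ _ z (by omega) h2) h3
      · exact hpp z h2 h3
      · exact h2 (Or.inr h3)
      · exact h2 (Or.inl (hpP _ _ z le_rfl h3))
    · rintro z (hz | hz) hzT
      · rcases h.seg_step (by omega) hz with rfl | ⟨w, h2, h3⟩
        · exact ⟨y, Or.inr hy, h1⟩
        · exact ⟨w, Or.inl h2, h3⟩
      · obtain ⟨w, h2, h3⟩ := hYf z hz hzT
        exact ⟨w, Or.inr h2, h3⟩
    · rintro z (hz | hz) hzT
      · obtain ⟨w, h2, h3⟩ := h.symm.friendly_img hz hzT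
        exact ⟨w, Or.inl h2, h3⟩
      · obtain ⟨w, h2, h3⟩ := htail z hz hzT
        exact ⟨w, Or.inr h2, h3⟩
  push Not at h1
  have hkT : p k ∉ T := h.not_term hG (by omega)
  have hq1 : ∀ y, E (p k) y → y ≠ p (k + 1) → ∃ c ≤ l, q c = y := by
    intro y h2 h3
    by_contra hc
    apply h1 y _ h2
    rintro (⟨c, h4, rfl⟩ | h4)
    · exact h3 (by rw [h.chord hB (by omega) h4 h2])
    · exact hc h4
  obtain ⟨a, b, ha, hb1, hba, hea, heb⟩ : ∃ a b, a ≤ l ∧ 1 ≤ b ∧ b < a ∧ E (p k) (q a) ∧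
      E (p k) (q b) := by
    obtain ⟨y1, c1, c2⟩ := hG.nbr hkT {p (k + 1), q 0} (by
      have : ({p (k + 1), q 0} : Finset V).card ≤ 2 := Finset.card_le_two
      omega)
    obtain ⟨y2, c3, c4⟩ := hG.nbr hkT {p (k + 1), q 0, y1} (by
      have : ({p (k + 1), q 0, y1} : Finset V).card ≤ 3 := Finset.card_le_three
      omega)
    simp only [Finset.mem_insert, Finset.mem_singleton, not_or] at c2 c4
    obtain ⟨a, c5, rfl⟩ := hq1 y1 c1 c2.1
    obtain ⟨b, c6, rfl⟩ := hq1 y2 c3 c4.1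
    have c7 : a ≠ 0 := fun h => c2.2 (by rw [h])
    have c8 : b ≠ 0 := fun h => c4.2.1 (by rw [h])
    have c9 : a ≠ b := fun h => c4.2.2 (by rw [h])
    rcases Nat.lt_or_ge a b with c10 | c10
    · exact ⟨b, a, c6, by omega, c10, c3, c1⟩
    · exact ⟨a, b, c5, by omega, by omega, c1, c3⟩
  by_cases h2 : ∃ y, (y ∈ Y ∨ y ∈ seg p (k + 1) m) ∧ E (q b) y
  · obtain ⟨y, hy, h2⟩ := h2
    refine ⟨seg p 0 k ∪ seg q a l, seg q 0 b ∪ (Y ∪ seg p (k + 1) m), ?_, ?_, ?_,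
      Or.inl ⟨0, le_rfl, Nat.zero_le _, h.p0⟩, Or.inl ⟨0, le_rfl, Nat.zero_le _, h.q0⟩,
      Or.inl ⟨Or.inl ⟨i, Nat.zero_le _, by omega, rfl⟩,
        Or.inr (Or.inr ⟨k + 1, le_rfl, hj, rfl⟩)⟩⟩
    · rw [Set.disjoint_left]
      rintro z (h3 | h3) (h4 | h4 | h4)
      · exact hPQ z (hpP _ _ z (by omega) h3) (hqQ _ _ z (by omega) h4)
      · exact h4 (Or.inl (hpP _ _ z (by omega) h3))
      · exact hpp z h3 h4
      · obtain ⟨n, c1, c2, rfl⟩ := h3
        obtain ⟨n', c3, c4, c5⟩ := h4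
        have := h.qinj n' (by omega) n c2 c5
        omega
      · exact h4 (Or.inr (hqQ _ _ z le_rfl h3))
      · exact hPQ z (hpP _ _ z le_rfl h4) (hqQ _ _ z le_rfl h3)
    · rintro z (hz | hz) hzT
      · rcases h.seg_step (by omega) hz with rfl | ⟨w, h3, h4⟩
        · exact ⟨q a, Or.inr ⟨a, le_rfl, ha, rfl⟩, hea⟩
        · exact ⟨w, Or.inl h3, h4⟩
      · rcases h.symm.seg_step le_rfl hz with rfl | ⟨w, h3, h4⟩
        · exact absurd h.ql hzT
        · exact ⟨w, Or.inr h3, h4⟩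
    · rintro z (hz | hz | hz) hzT
      · rcases h.symm.seg_step (by omega) hz with rfl | ⟨w, h3, h4⟩
        · exact ⟨y, Or.inr hy, h2⟩
        · exact ⟨w, Or.inl h3, h4⟩
      · obtain ⟨w, h3, h4⟩ := hYf z hz hzT
        exact ⟨w, Or.inr (Or.inl h3), h4⟩
      · obtain ⟨w, h3, h4⟩ := htail z hz hzT
        exact ⟨w, Or.inr (Or.inr h3), h4⟩
  push Not at h2
  exfalso
  have hbT : q b ∉ T := h.symm.not_term hG (by omega)
  obtain ⟨c, hc1, hck, hec⟩ : ∃ c, 1 ≤ c ∧ c ≤ k ∧ E (q b) (p c) := by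
    obtain ⟨y, c1, c2⟩ := hG.nbr hbT {q (b + 1), p 0} (by
      have : ({q (b + 1), p 0} : Finset V).card ≤ 2 := Finset.card_le_two
      omega)
    simp only [Finset.mem_insert, Finset.mem_singleton, not_or] at c2
    have c3 : y ∈ img p m ∪ img q l := by
      by_contra hc
      exact h2 y (Or.inl hc) c1
    rcases c3 with ⟨c, c3, rfl⟩ | ⟨c, c3, rfl⟩
    · refine ⟨c, ?_, ?_, c1⟩
      · by_contra hc
        exact c2.2 (by rw [show c = 0 by omega])
      · by_contra hc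
        exact h2 _ (Or.inr ⟨c, by omega, c3, rfl⟩) c1
    · exact absurd (by rw [h.symm.chord hB.symm (by omega) c3 c1]) c2.1
  let D : Set V := insert (q b) (seg p c k)
  have hDc : Cyc E D := by
    rintro z (rfl | hz)
    · exact ⟨p c, Or.inr ⟨c, le_rfl, hck, rfl⟩, hec⟩
    · rcases h.seg_step (by omega) hz with rfl | ⟨w, h3, h4⟩
      · exact ⟨q b, Or.inl rfl, heb⟩
      · exact ⟨w, Or.inr h3, h4⟩
  have hDY : Y ⊆ Dᶜ := by
    rintro z hz (rfl | h3)
    · exact hz (Or.inr ⟨b, by omega, rfl⟩)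
    · exact hz (Or.inl (hpP _ _ z (by omega) h3))
  have hsrc : ∀ s, (s = u ∨ s = v) → ∀ y ∈ Y, ¬ E s y := by
    intro s hs y hy he
    have hsD : s ∈ Dᶜ := by
      rintro (h3 | ⟨n, h3, h4, h5⟩)
      · rcases hs with rfl | rfl
        · exact h.disj 0 (by omega) b (by omega) (by rw [h.p0, h3])
        · have := h.qinj 0 (by omega) b (by omega) (by rw [h.q0, h3])
          omega
      · rcases hs with rfl | rfl
        · have := h.pinj n (by omega) 0 (by omega) (by rw [h.p0, h5])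
          omega
        · exact h.disj n (by omega) 0 (by omega) (by rw [h.q0, h5])
    rcases friendly_dichotomy (E := E) (T := T) hYf hy with ⟨t, ht, h3⟩ | ⟨D', h3, h4, h5⟩
    · exact hB.b1 D ⟨_, Or.inl rfl⟩ hDc s hs t ht (Reach.head hsD he (h3.mono hDY))
    · obtain ⟨n, hn, h6⟩ := h.meets hB ⟨y, h5⟩ h4
      exact h3 h6 (Or.inl ⟨n, hn, rfl⟩)
  have huT : u ∉ T := by
    rw [← h.p0]; exact h.not_term hG (by omega)
  have hvT : v ∉ T := by
    rw [← h.q0]; exact h.symm.not_term hG (by omega)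
  obtain ⟨y, c1, c2⟩ := hG.nbr huT {p 1, q 0, q 1} (by
    have : ({p 1, q 0, q 1} : Finset V).card ≤ 3 := Finset.card_le_three
    omega)
  obtain ⟨y', c3, c4⟩ := hG.nbr hvT {q 1, p 0} (by
    have : ({q 1, p 0} : Finset V).card ≤ 2 := Finset.card_le_two
    omega)
  simp only [Finset.mem_insert, Finset.mem_singleton, not_or] at c2 c4
  have c5 : y ∈ img p m ∪ img q l := by
    by_contra hc
    exact hsrc u (Or.inl rfl) y hc c1
  have c6 : y' ∈ img p m ∪ img q l := by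
    by_contra hc
    exact hsrc v (Or.inr rfl) y' hc c3
  rcases c5 with ⟨n, c5, rfl⟩ | ⟨n, c5, rfl⟩
  · exact c2.1 (by rw [h.chord hB (Nat.zero_le _) c5 (by rw [h.p0]; exact c1)])
  rcases c6 with ⟨n', c6, rfl⟩ | ⟨n', c6, rfl⟩
  · refine h.cross c6 ?_ c5 ?_ c1 c3
    · by_contra hc
      exact c4.2 (by rw [show n' = 0 by omega])
    · by_contra hc
      have : n = 0 ∨ n = 1 := by omega
      rcases this with rfl | rfl
      · exact c2.2.1 rfl
      · exact c2.2.2 rfl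
  · exact c4.1 (by rw [h.symm.chord hB.symm (Nat.zero_le _) c6 (by rw [h.q0]; exact c3)])

lemma marked_side [Finite V] (hd : 8 ≤ d) (h : ML E T u v m l p q) (hG : Good d E T)
    (hB : Blocking E T u v) {a b : V} (hab : a ≠ b) (ha : a ∈ img p m)
    (hgood : ∀ z, z ∉ T → z ∉ img p m → z ∉ img q l →
      InCyc E z ∨ (z = b ∧ E a b) ∨ (z = a ∧ E b a)) : Sep2 E T u v a b := by
  by_cases hb : b ∈ img p m
  · have hg : ∀ z, z ∉ T → z ∉ img p m → z ∉ img q l → InCyc E z := by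
      intro z h1 h2 h3
      rcases hgood z h1 h2 h3 with h4 | ⟨rfl, -⟩ | ⟨rfl, -⟩
      · exact h4
      · exact absurd hb h2
      · exact absurd ha h2
    obtain ⟨i, hi, rfl⟩ := ha
    obtain ⟨j, hj, rfl⟩ := hb
    rcases lt_trichotomy i j with h1 | h1 | h1
    · exact marked_both hd h hG hB h1 hj hg
    · exact absurd (by rw [h1]) hab
    · exact (marked_both hd h hG hB h1 hi hg).swap_right
  · exact marked_one hd h hG hB ha hb hgood

theorem marked [Finite V] (hd : 8 ≤ d) {n0 : ℕ} (IH : IHyp V d n0) (n : ℕ) :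
    ∀ (E : V → V → Prop) (T : Set V) (u v a b : V), Tᶜ.ncard = n → n < n0 →
      Good d E T → u ≠ v → a ≠ b → Blocking E T u v → Sep2 E T u v a b := by
  classical
  induction n using Nat.strong_induction_on with
  | _ n ih =>
  intro E T u v a b hn hn0 hG huv hab hB
  by_contra hcon
  have hS := IH E T hG (by omega) u v huv
  obtain ⟨m, l, p, q, h⟩ := exists_ML hB hS
  have hnd : ∀ x y, E x y → E y x → (x = u ∧ y = v) ∨ (x = v ∧ y = u) := by
    intro x y hxy hyx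
    have h8 : ({x, y} : Finset V).card + 5 ≤ d := by
      have : ({x, y} : Finset V).card ≤ 2 := Finset.card_le_two
      omega
    have h1 := hB.b1 _ ⟨x, Or.inl rfl⟩ (digon_cyc hxy hyx)
    have h2 := small_cut (by omega) IH (by omega) hG huv hB {x, y} h8 (by simpa using h1)
    have h3 := small_cut (by omega) IH (by omega) hG huv.symm hB.symm {x, y} h8
      (fun s hs => by simpa using h1 s hs.symm)
    exact pair_eq huv (by simpa using h2) (by simpa using h3)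
  have hdom : ∀ x y, E x y → ¬ (x = u ∧ y = v) → ¬ (x = v ∧ y = u) → ¬ (x = a ∧ y = b) →
      ¬ (x = b ∧ y = a) → ∃ w, E w x ∧ E w y := by
    intro x y hxy h2 h3 h4 h5
    by_contra hc
    push Not at hc
    have hyx : ¬ E y x := fun h4 => by
      rcases hnd x y hxy h4 with h5 | h5
      · exact h2 h5
      · exact h3 h5
    have hne : y ≠ x := fun h4 => hG.irrefl x (h4 ▸ hxy)
    exact hcon (Sep2.of_ctr hxy hne (ih _ (hn ▸ ncard_ctr (hG.term _ _ hxy)) (ctr E x y)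
      (insert x T) _ _ _ _ rfl (by have := ncard_ctr (hG.term _ _ hxy); omega)
      (hG.ctr hxy hyx hc) (phi_inj huv h2 h3) (phi_inj hab h4 h5) (hB.ctr hxy hne)))
  have hgood : ∀ z, z ∉ T → z ∉ img p m → z ∉ img q l →
      InCyc E z ∨ (z = b ∧ E a b) ∨ (z = a ∧ E b a) := by
    intro z h1 h2 h3
    by_contra hc
    push Not at hc
    have hzu : z ≠ u := fun h5 => h2 ⟨0, Nat.zero_le _, by rw [h.p0, h5]⟩
    have hzv : z ≠ v := fun h5 => h3 ⟨0, Nat.zero_le _, by rw [h.q0, h5]⟩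
    apply hc.1
    apply inCyc_of_dom
    · obtain ⟨y, h5, h6⟩ := hG.nbr h1 {a, b} (by
        have : ({a, b} : Finset V).card ≤ 2 := Finset.card_le_two
        omega)
      simp only [Finset.mem_insert, Finset.mem_singleton, not_or] at h6
      obtain ⟨w, h7, -⟩ := hdom z y h5 (fun h => hzu h.1) (fun h => hzv h.1)
        (fun h => h6.2 h.2) (fun h => h6.1 h.2)
      exact ⟨w, h7⟩
    · intro x hx
      refine hdom x z hx (fun h => hzv h.2) (fun h => hzu h.2) ?_ ?_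
      · rintro ⟨rfl, rfl⟩
        exact hc.2.1 rfl hx
      · rintro ⟨rfl, rfl⟩
        exact hc.2.2 rfl hx
  apply hcon
  by_cases h1 : a ∈ img p m
  · exact marked_side hd h hG hB hab h1 hgood
  by_cases h2 : b ∈ img p m
  · exact (marked_side hd h hG hB hab.symm h2 (fun z c1 c2 c3 => by
      have := hgood z c1 c2 c3
      tauto)).swap_right
  by_cases h3 : a ∈ img q l
  · exact (marked_side hd h.symm hG hB.symm hab h3 (fun z c1 c2 c3 =>
      hgood z c1 c3 c2)).swap_left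
  by_cases h4 : b ∈ img q l
  · exact (marked_side hd h.symm hG hB.symm hab.symm h4 (fun z c1 c2 c3 => by
      have := hgood z c1 c3 c2
      tauto)).swap_right.swap_left
  refine marked_none hd h hG hB hab h1 h2 h3 h4 ?_ hgood
  rintro ⟨h5, h6⟩
  rcases hnd a b h5 h6 with ⟨rfl, -⟩ | ⟨rfl, -⟩
  · exact h1 ⟨0, Nat.zero_le _, h.p0⟩
  · exact h3 ⟨0, Nat.zero_le _, h.q0⟩

end Pool.Agent.Work.MP_97603a_co
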