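import Mathlib
import Pool.Agent.Work.MP_97603a_co.Marked
import Pool.Agent.Work.MP_97603a_co.Menger

namespace Pool.Agent.Work.MP_97603a_co

variable {V : Type} {d : ℕ} {E : V → V → Prop} {T : Set V} {u v : V}

lemma Cyc.friendly {D : Set V} (h : Cyc E D) : Friendly E T D := fun x hx _ => h x hx

lemma Cyc.of_restr {A D : Set V} (h : Cyc (restr E A) D) : Cyc E D ∧ D ⊆ A :=
  ⟨fun z hz => by
    obtain ⟨y, h1, h2⟩ := h z hz
    exact ⟨y, h1, h2.1⟩, fun z hz => by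
    obtain ⟨y, -, h2⟩ := h z hz
    exact h2.2⟩

lemma friendly_path {U D : Set V} {s t : V} (hD : Friendly E T D) (ht : t ∈ D) :
    Friendly E T ({z | Reach E U s z ∧ Reach E U z t} ∪ D) := by
  rintro z (hz | hz) hzT
  · by_cases h : z = t
    · subst h
      obtain ⟨y, h1, h2⟩ := hD z ht hzT
      exact ⟨y, Or.inr h1, h2⟩
    · obtain ⟨y, h1, h2, h3⟩ := Reach.between_step z hz.1 hz.2 h
      exact ⟨y, Or.inl ⟨h2, h3⟩, h1⟩
  · obtain ⟨y, h1, h2⟩ := hD z hz hzT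
    exact ⟨y, Or.inr h1, h2⟩

lemma nested [Finite V] (hG : Good d E T) (IH : IHyp V d Tᶜ.ncard) (huv : u ≠ v)
    (hns : ¬ Sep E T u v) {C D : Set V} (hC : Cyc E C) (huC : u ∉ C) (hvC : v ∉ C)
    (hD : Friendly E T D) (hDne : D.Nonempty) (hDA : D ⊆ Av E u v C) :
    ∀ s, (s = u ∨ s = v) → ∀ c ∈ C, ¬ Reach E Dᶜ s c := by
  classical
  intro s hs c hc hr
  have hDC : ∀ z, z ∈ D → z ∈ C → False := fun z h1 h2 => Av.not_mem (hDA h1) h2
  have hone : ∀ s s', s ∈ D → Reach E Dᶜ s' c → Sep E T s s' := by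
    intro s s' h1 h2
    refine ⟨D, {z | Reach E Dᶜ s' z ∧ Reach E Dᶜ z c} ∪ C, ?_, hD, friendly_path hC.friendly hc,
      h1, Or.inl ⟨Reach.refl h2.1, h2⟩⟩
    rw [Set.disjoint_left]
    rintro z h3 (h4 | h4)
    · exact h4.1.right_mem h3
    · exact hDC z h3 h4
  have huD : u ∉ D := by
    intro h
    rcases hs with rfl | rfl
    · exact hr.1 h
    · exact hns (hone u s h hr)
  have hvD : v ∉ D := by
    intro h
    rcases hs with rfl | rfl
    · exact hns (hone v s h hr).symm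
    · exact hr.1 h
  have hsDC : ∀ s, (s = u ∨ s = v) → s ∉ D ∧ s ∉ C := by
    rintro s (rfl | rfl)
    · exact ⟨huD, huC⟩
    · exact ⟨hvD, hvC⟩
  obtain ⟨δ, hδ⟩ := hDne
  let H : V → V → Prop := fun a b => a ∉ D ∧ a ∉ C ∧
    ((b ∉ D ∧ b ∉ C ∧ E a b) ∨ (b = δ ∧ ∃ x ∈ D, E a x) ∨ (b = c ∧ ∃ x ∈ C, E a x))
  -- from walks of `E` to walks of `H`
  have toH : ∀ (U : Set V) s x, s ∉ D → s ∉ C → x ∈ D ∪ C → Reach E U s x →
      ∃ x' ∈ U, ∃ a, Reach H (U \ (D ∪ C)) s a ∧ a ∉ D ∧ a ∉ C ∧ E a x' ∧ x' ∈ D ∪ C ∧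
        Reach E U x' x := by
    intro U s x h1 h2 h3 h4
    rcases h4.first_hit (D ∪ C) with h5 | ⟨x', h5, h6, h7⟩
    · exact absurd h3 h5.right_mem.2
    · rcases h7 with rfl | ⟨a, h7, h8⟩
      · exact absurd h5 (fun h => h.elim h1 h2)
      · refine ⟨x', h6.1, a, h7.mono' ?_ subset_rfl, fun h => h7.right_mem.2 (Or.inl h),
          fun h => h7.right_mem.2 (Or.inr h), h8, h5, h6⟩
        intro a b ha hb he
        exact ⟨fun h => ha.2 (Or.inl h), fun h => ha.2 (Or.inr h),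
          Or.inl ⟨fun h => hb.2 (Or.inl h), fun h => hb.2 (Or.inr h), he⟩⟩
  by_cases hsep : NoSep H {u, v} {δ, c} 2
  · obtain ⟨s', t', P, h1, h2⟩ := menger 2 H _ _ hsep
    have hd01 := h2 0 1 (by decide)
    have hs' : s' 0 ≠ s' 1 := fun h =>
      Set.disjoint_left.1 hd01 (h1 0).2.2.1 (h ▸ (h1 1).2.2.1)
    have ht' : t' 0 ≠ t' 1 := fun h =>
      Set.disjoint_left.1 hd01 (h1 0).2.2.right_mem (h ▸ (h1 1).2.2.right_mem)
    have hfr : ∀ (i : Fin 2) (F : Set V), Friendly E T F → t' i ∈ F →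
        (∀ a, H a (t' i) → ∃ x ∈ F, E a x) →
        Friendly E T ({z | Reach H (P i) (s' i) z ∧ Reach H (P i) z (t' i)} ∪ F) := by
      intro i F hF htF hlast z hz hzT
      by_cases hzF : z ∈ F
      · obtain ⟨y, h3, h4⟩ := hF z hzF hzT
        exact ⟨y, Or.inr h3, h4⟩
      rcases hz with hz | hz
      swap
      · exact absurd hz hzF
      obtain ⟨y, h3, h4, h5⟩ := Reach.between_step z hz.1 hz.2 (fun h => hzF (h ▸ htF))
      by_cases h6 : y = t' i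
      · obtain ⟨x, h7, h8⟩ := hlast z (h6 ▸ h3)
        exact ⟨x, Or.inr h7, h8⟩
      · rcases h5.cases_head with h7 | ⟨w, h7, -⟩
        · exact absurd h7 h6
        · rcases h3.2.2 with h8 | h8 | h8
          · exact ⟨y, Or.inl ⟨h4, h5⟩, h8.2.2⟩
          · exact absurd (h8.1 ▸ hδ) h7.1
          · exact absurd (h8.1 ▸ hc) h7.2.1
    have hmem : ∀ (i : Fin 2) z, Reach H (P i) z (t' i) → z ∈ D ∪ C → z = t' i := by
      intro i z h3 h4
      rcases h3.cases_head with h5 | ⟨w, h5, -⟩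
      · exact h5
      · exact absurd h4 (fun h => h.elim h5.1 h5.2.1)
    have key : ∀ i j : Fin 2, Disjoint (P i) (P j) → t' i = δ → t' j = c →
        Sep E T (s' i) (s' j) := by
      intro i j h3 h4 h5
      refine ⟨_, _, ?_, hfr i D hD (h4 ▸ hδ) ?_, hfr j C hC.friendly (h5 ▸ hc) ?_,
        Or.inl ⟨Reach.refl (h1 i).2.2.1, (h1 i).2.2⟩, Or.inl ⟨Reach.refl (h1 j).2.2.1, (h1 j).2.2⟩⟩
      · rw [Set.disjoint_left]
        rintro z (h6 | h6) (h7 | h7)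
        · exact Set.disjoint_left.1 h3 h6.1.right_mem h7.1.right_mem
        · have := hmem i z h6.2 (Or.inr h7)
          exact hDC z (by rw [this, h4]; exact hδ) h7
        · have := hmem j z h7.2 (Or.inl h6)
          exact hDC z h6 (by rw [this, h5]; exact hc)
        · exact hDC z h6 h7
      · rw [h4]
        rintro a ⟨-, -, h6 | h6 | h6⟩
        · exact absurd hδ h6.1
        · exact h6.2
        · exact absurd (h6.1 ▸ hc) (hDC δ hδ)
      · rw [h5]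
        rintro a ⟨-, -, h6 | h6 | h6⟩
        · exact absurd hc h6.2.1
        · exact absurd hc (hDC c (h6.1 ▸ hδ))
        · exact h6.2
    have h3 : Sep E T (s' 0) (s' 1) := by
      rcases (h1 0).2.1 with h3 | h3 <;> rcases (h1 1).2.1 with h4 | h4
      · exact absurd (h3.trans h4.symm) ht'
      · exact key 0 1 hd01 h3 h4
      · exact (key 1 0 hd01.symm h4 h3).symm
      · exact absurd (h3.trans h4.symm) ht'
    rcases (h1 0).1 with h4 | h4 <;> rcases (h1 1).1 with h5 | h5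
    · exact hs' (h4.trans h5.symm)
    · rw [h4, h5] at h3; exact hns h3
    · rw [h4, h5] at h3; exact hns h3.symm
    · exact hs' (h4.trans h5.symm)
  unfold NoSep at hsep
  push Not at hsep
  obtain ⟨Z, hZ, hZs⟩ := hsep
  have : Nonempty V := ⟨u⟩
  obtain ⟨m, hm⟩ := Finset.card_le_one_iff_subset_singleton.1 (show Z.card ≤ 1 by omega)
  have hcut : ∀ s, (s = u ∨ s = v) → ∀ a t, (t = δ ∨ t = c) → Reach H {m}ᶜ s a → H a t →
      t ≠ m → False := by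
    intro s hs a t ht h1 h2 h3
    refine hZs s hs t ht ((h1.tail h2 h3).mono ?_)
    intro z hz hzZ
    exact hz (Finset.mem_singleton.1 (hm hzZ))
  have hmD : m ∉ D := by
    intro hmD
    obtain ⟨x, h1, a, h2, h3, h4, h5, h6, -⟩ := toH _ s c (hsDC s hs).1 (hsDC s hs).2
      (Or.inr hc) hr
    refine hcut s hs a c (Or.inr rfl) (h2.mono ?_) ⟨h3, h4, Or.inr (Or.inr ⟨rfl, x, ?_, h5⟩)⟩ ?_
    · rintro z hz rfl
      exact hz.1 hmD
    · exact h6.resolve_left h1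
    · rintro rfl
      exact hDC _ hmD hc
  have hmC : m ∉ C := by
    intro hmC
    obtain ⟨s0, hs0, hr0⟩ : ∃ s0, (s0 = u ∨ s0 = v) ∧ Reach E Cᶜ s0 δ := by
      rcases hDA hδ with h | h
      · exact ⟨u, Or.inl rfl, h⟩
      · exact ⟨v, Or.inr rfl, h⟩
    obtain ⟨x, h1, a, h2, h3, h4, h5, h6, -⟩ := toH _ s0 δ (hsDC s0 hs0).1 (hsDC s0 hs0).2
      (Or.inl hδ) hr0
    refine hcut s0 hs0 a δ (Or.inl rfl) (h2.mono ?_)
      ⟨h3, h4, Or.inr (Or.inl ⟨rfl, x, ?_, h5⟩)⟩ ?_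
    · rintro z hz rfl
      exact hz.1 hmC
    · exact h6.resolve_right h1
    · rintro rfl
      exact hDC _ hδ hmC
  have hAm : ∀ x ∈ C, x ∉ Av E u v {m} := by
    intro x hx hA
    obtain ⟨s0, hs0, hr0⟩ : ∃ s0, (s0 = u ∨ s0 = v) ∧ Reach E {m}ᶜ s0 x := by
      rcases hA with h | h
      · exact ⟨u, Or.inl rfl, h⟩
      · exact ⟨v, Or.inr rfl, h⟩
    obtain ⟨x', -, a, h2, h3, h4, h5, h6, -⟩ := toH _ s0 x (hsDC s0 hs0).1 (hsDC s0 hs0).2
      (Or.inr hx) hr0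
    rcases h6 with h6 | h6
    · exact hcut s0 hs0 a δ (Or.inl rfl) (h2.mono Set.sdiff_subset)
        ⟨h3, h4, Or.inr (Or.inl ⟨rfl, x', h6, h5⟩)⟩ (fun h => hmD (h ▸ hδ))
    · exact hcut s0 hs0 a c (Or.inr rfl) (h2.mono Set.sdiff_subset)
        ⟨h3, h4, Or.inr (Or.inr ⟨rfl, x', h6, h5⟩)⟩ (fun h => hmC (h ▸ hc))
  obtain ⟨m', hmm', hm'⟩ : ∃ m', E m m' ∧ Reach E {m}ᶜ m' c := by
    rcases hr.last_hit {m} with h | ⟨x, hx, -, h⟩
    · exact absurd (Av.of_reach hs (h.mono (fun z hz => hz.2))) (hAm c hc)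
    · have hx : x = m := hx
      subst hx
      rcases h with rfl | ⟨m', h1, h2⟩
      · exact absurd hc hmC
      · exact ⟨m', h1, h2.mono (fun z hz => hz.2)⟩
  have hmT : m ∉ T := hG.term _ _ hmm'
  obtain ⟨U0, U1, c1, c2, c3, c4, c5⟩ := IH _ _ (hG.restr (A := (insert m T)ᶜ)
    (fun x hx h => hx (Or.inr h))) (by
      rw [compl_compl]
      exact ncard_ctr hmT) u v huv
  let R : Set V := {z | Reach E {m}ᶜ m' z ∧ Reach E {m}ᶜ z c} ∪ C
  have hR : Friendly E T R := friendly_path hC.friendly hc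
  have hRA : ∀ z ∈ R, z ∉ insert m (Av E u v {m}) := by
    rintro z (hz | hz) (h | h)
    · exact hz.2.1 h
    · exact hAm c hc (Av.reach h hz.2)
    · exact hmC (h ▸ hz)
    · exact hAm z hz h
  have hfr : ∀ U, Friendly (restr E (insert m T)ᶜ) (insert m T)ᶜᶜ U →
      Friendly E T ((U ∩ insert m (Av E u v {m})) ∪ {z | z ∈ R ∧ m ∈ U}) := by
    rintro U hU z (⟨h1, h2⟩ | ⟨h1, h2⟩) hzT
    · by_cases hzm : z = m
      · subst hzm
        exact ⟨m', Or.inr ⟨Or.inl ⟨Reach.refl hm'.1, hm'⟩, h1⟩, hmm'⟩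
      · obtain ⟨y, h3, h4⟩ := hU z h1 (by
          rw [compl_compl]
          exact fun h => h.elim hzm hzT)
        refine ⟨y, Or.inl ⟨h3, ?_⟩, h4.1⟩
        by_cases h5 : y = m
        · exact Or.inl h5
        · exact Or.inr (Av.step (h2.resolve_left hzm) h4.1 h5)
    · obtain ⟨y, h3, h4⟩ := hR z h1 hzT
      exact ⟨y, Or.inr ⟨h3, h2⟩, h4⟩
  have hsrc : ∀ s, (s = u ∨ s = v) → s ∈ insert m (Av E u v {m}) := by
    intro s hs
    by_cases h : s = m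
    · exact Or.inl h
    · exact Or.inr (Av.src hs h)
  refine hns ⟨_, _, ?_, hfr U0 c2, hfr U1 c3, Or.inl ⟨c4, hsrc u (Or.inl rfl)⟩,
    Or.inl ⟨c5, hsrc v (Or.inr rfl)⟩⟩
  rw [Set.disjoint_left] at c1 ⊢
  rintro z (h1 | h1) (h2 | h2)
  · exact c1 h1.1 h2.1
  · exact hRA z h2.1 h1.2
  · exact hRA z h1.1 h2.2
  · exact c1 h1.2 h2.2

lemma all_reachable [Finite V] (hG : Good d E T) (IH : IHyp V d Tᶜ.ncard) (huv : u ≠ v)
    (hns : ¬ Sep E T u v) : ∀ z, z ∉ T → z ∈ Av E u v ∅ := by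
  intro z hz
  by_contra hc
  obtain ⟨U0, U1, c1, c2, c3, c4, c5⟩ := IH _ _ (hG.restr (A := Av E u v ∅ \ T)
    (fun x hx => hx.2)) (by
      rw [compl_compl]
      apply Set.ncard_lt_ncard _ (Set.toFinite _)
      exact ⟨fun x hx => hx.2, fun h => hc (h (a := z) hz).1⟩) u v huv
  have hfr : ∀ U, Friendly (restr E (Av E u v ∅ \ T)) (Av E u v ∅ \ T)ᶜ U →
      Friendly E T (U ∩ Av E u v ∅) := by
    intro U hU x hx hxT
    obtain ⟨y, h1, h2⟩ := hU x hx.1 (fun h => h ⟨hx.2, hxT⟩)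
    exact ⟨y, ⟨h1, Av.step hx.2 h2.1 (by simp)⟩, h2.1⟩
  exact hns ⟨_, _, c1.mono Set.inter_subset_left Set.inter_subset_left, hfr U0 c2, hfr U1 c3,
    ⟨c4, Av.src (Or.inl rfl) (by simp)⟩, ⟨c5, Av.src (Or.inr rfl) (by simp)⟩⟩

lemma blocking_of_cyc [Finite V] (hG : Good d E T) (IH : IHyp V d Tᶜ.ncard) (huv : u ≠ v)
    (hns : ¬ Sep E T u v) {C : Set V} (hC : Cyc E C) (hne : C.Nonempty) (huC : u ∉ C)
    (hvC : v ∉ C) : (∀ z ∈ Av E u v C, z ∉ T) ∧ (Av E u v C)ᶜᶜ.ncard < Tᶜ.ncard ∧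
      Blocking (restr E (Av E u v C)) (Av E u v C)ᶜ u v := by
  obtain ⟨c, hc⟩ := hne
  have hcT : c ∉ T := by
    obtain ⟨y, -, h⟩ := hC c hc
    exact hG.term _ _ h
  have h1 : ∀ z ∈ Av E u v C, z ∉ T := by
    intro z hz hzT
    obtain ⟨s, hs, hr⟩ := Av.exists_reach (all_reachable hG IH huv hns c hcT)
    refine nested hG IH huv hns hC huC hvC (D := {z}) ?_ ⟨z, rfl⟩ (by simpa using hz) s hs c hc
      (hr.restrict ?_)
    · rintro x rfl hx
      exact absurd hzT hx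
    · rintro w - h2 rfl
      rcases h2.cases_head with h3 | ⟨y, h3, -⟩
      · exact hcT (h3 ▸ hzT)
      · exact hG.term _ _ h3 hzT
  refine ⟨h1, ?_, ?_, ?_⟩
  · rw [compl_compl]
    apply Set.ncard_lt_ncard _ (Set.toFinite _)
    exact ⟨h1, fun h => Av.not_mem (h (a := c) hcT) hc⟩
  · intro D hD hcD s hs t ht hr
    exact nested hG IH huv hns hC huC hvC hcD.of_restr.1.friendly hD hcD.of_restr.2 s hs t
      (Av.exit hs hr ht).1 (hr.mono' (fun _ _ _ _ h => h.1) subset_rfl)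
  · intro D0 D1 c1 c2 c3 c4 c5
    exact hns ⟨D0, D1, c1, c2.of_restr.1.friendly, c3.of_restr.1.friendly, c4, c5⟩

lemma no_digon [Finite V] (hd : 7 ≤ d) (hG : Good d E T) (IH : IHyp V d Tᶜ.ncard) (huv : u ≠ v)
    (hns : ¬ Sep E T u v) {x y : V} (hxy : E x y) (hyx : E y x) :
    (x = u ∧ y = v) ∨ (x = v ∧ y = u) := by
  classical
  have hcard : ({x, y} : Finset V).card ≤ 2 := Finset.card_le_two
  have hone : ∀ s s', s ∈ ({x, y} : Set V) → s' ∉ ({x, y} : Set V) → Sep E T s s' := by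
    intro s s' h1 h2
    refine ⟨{x, y}, {x, y}ᶜ, disjoint_compl_right, (digon_cyc hxy hyx).friendly, ?_, h1, h2⟩
    intro z _ hzT
    obtain ⟨w, h3, h4⟩ := hG.nbr hzT {x, y} (by omega)
    exact ⟨w, by simpa using h4, h3⟩
  by_cases hu : u ∈ ({x, y} : Set V) <;> by_cases hv : v ∈ ({x, y} : Set V)
  · exact pair_eq huv hu hv
  · exact absurd (hone u v hu hv) hns
  · exact absurd (hone v u hv hu).symm hns
  · exfalso
    obtain ⟨h1, h2, h3⟩ := blocking_of_cyc hG IH huv hns (digon_cyc hxy hyx) ⟨x, Or.inl rfl⟩ hu hv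
    refine small_terminals hd IH _ _ _ u v {x, y} rfl h2 (hG.restr h1) huv h3 (by omega) ?_
      (Av.src (Or.inl rfl) hu)
    intro a b h4 h5
    by_contra hc
    exact h5 (Av.step h4.2 h4.1 (by simpa using hc))

lemma in_cycle [Finite V] (hd : 7 ≤ d) (hG : Good d E T) (IH : IHyp V d Tᶜ.ncard) (huv : u ≠ v)
    (hns : ¬ Sep E T u v) {z : V} (hzT : z ∉ T) (hzu : z ≠ u) (hzv : z ≠ v) :
    ∃ D ⊆ {a | E a z}, D.Nonempty ∧ Cyc E D ∧ ∀ a ∈ D, ∀ b ∈ D, Reach E D a b := by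
  have hdom : ∀ x y, E x y → ¬ (x = u ∧ y = v) → ¬ (x = v ∧ y = u) → ∃ w, E w x ∧ E w y := by
    intro x y hxy h2 h3
    by_contra hc
    push Not at hc
    have hyx : ¬ E y x := fun h4 => by
      rcases no_digon hd hG IH huv hns hxy h4 with h5 | h5
      · exact h2 h5
      · exact h3 h5
    have hne : y ≠ x := fun h4 => hG.irrefl x (h4 ▸ hxy)
    exact hns (Sep.of_ctr hxy hne (IH _ _ (hG.ctr hxy hyx hc) (ncard_ctr (hG.term _ _ hxy)) _ _
      (phi_inj huv h2 h3)))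
  apply cyc_of_in
  · obtain ⟨y, h5, -⟩ := hG.nbr hzT ∅ (by simp; omega)
    obtain ⟨w, h6, -⟩ := hdom z y h5 (fun h => hzu h.1) (fun h => hzv h.1)
    exact ⟨w, h6⟩
  · intro a ha
    obtain ⟨w, h1, h2⟩ := hdom a z ha (fun h => hzv h.2) (fun h => hzu h.2)
    exact ⟨w, h2, h1⟩

end Pool.Agent.Work.MP_97603a_co
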