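import Mathlib
import Pool.Agent.Work.MP_97603a_co.Nest

namespace Pool.Agent.Work.MP_97603a_co

variable {V : Type} {d : ℕ} {E : V → V → Prop} {T : Set V} {u v : V}

lemma one_exit {T' U : Set V} {E' : V → V → Prop} (hT : ∀ x y, E' x y → x ∉ T')
    (hU : Friendly E' T' U) {x : V} (hx : x ∈ U) :
    ∃ U' ⊆ U, x ∈ U' ∧ Friendly E' T' U' ∧ ∃ a ∈ U', ∀ z ∈ U', z ∈ T' → z = a := by
  rcases friendly_dichotomy hU hx with ⟨t, ht, hr⟩ | ⟨D, h1, h2, h3⟩
  · refine ⟨{z | Reach E' U x z ∧ Reach E' U z t}, fun z hz => hz.1.right_mem,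
      ⟨Reach.refl hx, hr⟩, ?_, t, ⟨hr, Reach.refl hr.right_mem⟩, ?_⟩
    · intro z hz hzT
      obtain ⟨y, h1, h2, h3⟩ := Reach.between_step z hz.1 hz.2 (fun h => hzT (h ▸ ht))
      exact ⟨y, ⟨h2, h3⟩, h1⟩
    · intro z hz hzT
      rcases hz.2.cases_head with h | ⟨y, h, -⟩
      · exact h
      · exact absurd hzT (hT _ _ h)
  · refine ⟨D, h1, h3, h2.friendly, x, h3, ?_⟩
    intro z hz hzT
    obtain ⟨y, -, h⟩ := h2 z hz
    exact absurd hzT (hT _ _ h)

/-- If the first vertices of a cut `W` are all joined to two further vertices, we win. -/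
lemma win [Finite V] (hd : 8 ≤ d) (hG : Good d E T) (IH : IHyp V d Tᶜ.ncard) (huv : u ≠ v)
    (hns : ¬ Sep E T u v) (W : Set V) (x x' : V) (hxx : x ≠ x')
    (hAT : ∀ z ∈ Av E u v W, z ∉ T) (hxT : x ∉ T) (hxA : x ∉ Av E u v W) (huT : u ∉ T)
    (hcomp : ∀ w ∈ W, (w = u ∨ w = v ∨ ∃ a ∈ Av E u v W, E a w) → E w x ∧ E w x')
    (hblk : ∀ D : Set V, D.Nonempty → Cyc E D → D ⊆ Av E u v W → ∀ s, (s = u ∨ s = v) →
      ∀ w, E w x → ¬ Reach E Dᶜ s w) : False := by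
  set AW := Av E u v W with hAW
  let W0 : Set V := {w | w ∈ W ∧ (w = u ∨ w = v ∨ ∃ a ∈ AW, E a w)}
  let Am : Set V := AW ∪ W0
  have hsrc : ∀ s, (s = u ∨ s = v) → s ∈ Am := by
    intro s hs
    by_cases h : s ∈ W
    · exact Or.inr ⟨h, by tauto⟩
    · exact Or.inl (Av.src hs h)
  have hB : Blocking (restr E AW) AWᶜ u v := by
    constructor
    · intro D hD hc s hs t ht hr
      obtain ⟨h1, h2⟩ := Av.exit hs hr ht
      refine hblk D hD hc.of_restr.1 hc.of_restr.2 s hs t (hcomp t h1 ?_).1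
        (hr.mono' (fun _ _ _ _ h => h.1) subset_rfl)
      rcases h2 with rfl | h2
      · tauto
      · exact Or.inr (Or.inr h2)
    · intro D0 D1 c1 c2 c3 c4 c5
      exact hns ⟨D0, D1, c1, c2.of_restr.1.friendly, c3.of_restr.1.friendly, c4, c5⟩
  have hGo := hG.restr (A := (T ∪ Am)ᶜ) (fun z hz h => hz (Or.inl h))
  obtain ⟨U0, U1, c1, c2, c3, c4, c5⟩ := IH _ _ hGo (by
      rw [compl_compl]
      apply Set.ncard_lt_ncard _ (Set.toFinite _)
      exact ⟨fun z hz h => hz (Or.inl h),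
        fun h => h (a := u) huT (Or.inr (hsrc u (Or.inl rfl)))⟩) x x' hxx
  obtain ⟨U, d1, d2, d3, a, d4, d5⟩ := one_exit hGo.term c2 c4
  obtain ⟨U', e1, e2, e3, b, e4, e5⟩ := one_exit hGo.term c3 c5
  have hUU : Disjoint U U' := c1.mono d1 e1
  have hab : a ≠ b := fun h => Set.disjoint_left.1 hUU d4 (h ▸ e4)
  obtain ⟨V0, V1, f1, f2, f3, f4, f5, f6⟩ := marked hd IH _ (restr E AW) AWᶜ u v a b rfl (by
      rw [compl_compl]
      apply Set.ncard_lt_ncard _ (Set.toFinite _)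
      exact ⟨hAT, fun h => hxA (h (a := x) hxT)⟩) (hG.restr hAT) huv hab hB
  have glue : ∀ (V' U : Set V) (x a : V), Friendly (restr E AW) AWᶜ V' →
      Friendly (restr E (T ∪ Am)ᶜ) (T ∪ Am)ᶜᶜ U → x ∈ U → a ∈ V' →
      (∀ z ∈ U, z ∈ (T ∪ Am)ᶜᶜ → z = a) → (∀ w ∈ W0, E w x) →
      Friendly E T ((V' ∩ Am) ∪ U) := by
    intro V' U x a h1 h2 h3 h4 h5 h6
    have h7 : ∀ z ∈ V' ∩ Am, ∃ y ∈ (V' ∩ Am) ∪ U, E z y := by
      rintro z ⟨hz, hz' | hz'⟩
      · obtain ⟨y, h7, h8⟩ := h1 z hz (fun h => h hz')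
        refine ⟨y, Or.inl ⟨h7, ?_⟩, h8.1⟩
        by_cases h9 : y ∈ W
        · exact Or.inr ⟨h9, Or.inr (Or.inr ⟨z, hz', h8.1⟩)⟩
        · exact Or.inl (Av.step hz' h8.1 h9)
      · exact ⟨x, Or.inr h3, h6 z hz'⟩
    rintro z (hz | hz) hzT
    · exact h7 z hz
    · by_cases h8 : z ∈ Am
      · have h9 := h5 z hz (by rw [compl_compl]; exact Or.inr h8)
        exact h7 z ⟨h9 ▸ h4, h8⟩
      · obtain ⟨y, h9, h10⟩ := h2 z hz (by
          rw [compl_compl]; exact fun h => h.elim hzT h8)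
        exact ⟨y, Or.inr h9, h10.1⟩
  have hdisj : ∀ (V0 V1 U U' : Set V) (a b : V), Disjoint V0 V1 → Disjoint U U' → a ∈ V0 →
      b ∈ V1 → (∀ z ∈ U, z ∈ (T ∪ Am)ᶜᶜ → z = a) → (∀ z ∈ U', z ∈ (T ∪ Am)ᶜᶜ → z = b) →
      Disjoint ((V0 ∩ Am) ∪ U) ((V1 ∩ Am) ∪ U') := by
    intro V0 V1 U U' a b h1 h2 h3 h4 h5 h6
    rw [Set.disjoint_left] at h1 h2 ⊢
    rintro z (h7 | h7) (h8 | h8)
    · exact h1 h7.1 h8.1
    · have h9 := h6 z h8 (by rw [compl_compl]; exact Or.inr h7.2)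
      exact h1 h7.1 (h9 ▸ h4)
    · have h9 := h5 z h7 (by rw [compl_compl]; exact Or.inr h8.2)
      exact h1 (h9 ▸ h3) h8.1
    · exact h2 h7 h8
  have g1 : ∀ w ∈ W0, E w x := fun w hw => (hcomp w hw.1 hw.2).1
  have g2 : ∀ w ∈ W0, E w x' := fun w hw => (hcomp w hw.1 hw.2).2
  rcases f6 with ⟨f6, f7⟩ | ⟨f6, f7⟩
  · exact hns ⟨_, _, hdisj V0 V1 U U' a b f1 hUU f6 f7 d5 e5, glue V0 U x a f2 d3 d2 f6 d5 g1,
      glue V1 U' x' b f3 e3 e2 f7 e5 g2, Or.inl ⟨f4, hsrc u (Or.inl rfl)⟩,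
      Or.inl ⟨f5, hsrc v (Or.inr rfl)⟩⟩
  · exact hns ⟨_, _, hdisj V0 V1 U' U b a f1 hUU.symm f6 f7 e5 d5,
      glue V0 U' x' b f2 e3 e2 f6 e5 g2, glue V1 U x a f3 d3 d2 f7 d5 g1,
      Or.inl ⟨f4, hsrc u (Or.inl rfl)⟩, Or.inl ⟨f5, hsrc v (Or.inr rfl)⟩⟩

lemma final [Finite V] (hG : Good 20 E T) (IH : IHyp V 20 Tᶜ.ncard) (huv : u ≠ v)
    (hns : ¬ Sep E T u v) {C D : Set V} (hC : Cyc E C) (hCne : C.Nonempty) (huC : u ∉ C)
    (hvC : v ∉ C) (hDA : D ⊆ Av E u v C) (hDne : D.Nonempty) (hD : Cyc E D)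
    (hsc : ∀ a ∈ D, ∀ b ∈ D, Reach E D a b) (hDc : D.ncard ≤ 28) (huD : u ∉ D) (hvD : v ∉ D)
    (hin : ∀ g ∈ D, ∃ F ⊆ Av E u v C, F.Nonempty ∧ Cyc E F ∧ ∀ a ∈ F, E a g) : False := by
  classical
  obtain ⟨hAT, hlt, hB⟩ := blocking_of_cyc hG IH huv hns hC hCne huC hvC
  have hblk : ∀ F : Set V, F.Nonempty → Cyc E F → F ⊆ Av E u v C → ∀ s, (s = u ∨ s = v) →
      ∀ c ∈ C, ¬ Reach E Fᶜ s c := fun F h1 h2 h3 =>
    nested hG IH huv hns hC huC hvC h2.friendly h1 h3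
  set A := Av E u v C with hA
  set AD := Av E u v D with hAD
  have f2 : ∀ z ∈ AD, ∀ c ∈ C, ¬ Reach E Dᶜ z c := by
    rintro z (hz | hz) c hc hr
    · exact hblk D hDne hD hDA u (Or.inl rfl) c hc (hz.trans hr)
    · exact hblk D hDne hD hDA v (Or.inr rfl) c hc (hz.trans hr)
  have f1 : AD ⊆ A := by
    intro z hz
    obtain ⟨s, hs, hr⟩ := Av.exists_reach hz
    refine Av.of_reach hs (hr.mono ?_)
    intro w hw hwC
    exact f2 w hw w hwC (Reach.refl (Av.not_mem hw))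
  have hsD : ∀ s, (s = u ∨ s = v) → s ∉ D := by
    rintro s (rfl | rfl) <;> assumption
  let Df : Finset V := (Set.toFinite D).toFinset
  have hDf : ∀ z, z ∈ Df ↔ z ∈ D := fun z => by simp [Df]
  have hDfc : Df.card ≤ 28 := by
    rwa [Set.ncard_eq_toFinset_card D (Set.toFinite D)] at hDc
  let In : Finset V := Df.filter (fun g => ∃ a ∈ AD, E a g)
  have hIn : ∀ z, z ∈ In ↔ z ∈ D ∧ ∃ a ∈ AD, E a z := fun z => by simp [In, hDf]
  have hInc : 16 ≤ In.card := by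
    by_contra hc
    have h1 := small_cut (by omega) IH hlt (hG.restr hAT) huv hB In (by omega) (by
      intro s hs t ht hr
      have h2 := (Av.exit hs hr ht).1
      have h3 : Reach E (↑In)ᶜ s t := hr.mono' (fun _ _ _ _ h => h.1) subset_rfl
      rcases h3.first_hit D with h4 | ⟨c, h4, h5, h6⟩
      · exact hblk D hDne hD hDA s hs t h2 (h4.mono (fun z hz => hz.2))
      · rcases h6 with rfl | ⟨c', h6, h7⟩
        · exact hsD c hs h4
        · exact h5.1 ((hIn c).2 ⟨h4, c', Av.of_reach hs (h6.mono (fun z hz => hz.2)), h7⟩))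
    exact huD ((hIn u).1 h1).1
  let EH : V → V → Prop := fun a b => E a b ∧ a ∈ A ∧ b ∉ D
  have hNS : NoSep EH (↑In) C 4 := by
    intro Z hZ
    by_contra hc
    push Not at hc
    have h0 : (Z.erase u ∪ (Df \ In)).card + 5 ≤ 20 := by
      have h1 := Finset.card_union_le (Z.erase u) (Df \ In)
      have h2 := Finset.card_erase_le (s := Z) (a := u)
      have h3 : (Df \ In).card + In.card = Df.card :=
        Finset.card_sdiff_add_card_eq_card (Finset.filter_subset _ Df)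
      omega
    have h1 := small_cut (by omega) IH hlt (hG.restr hAT) huv hB _ h0 (by
      intro s hs t ht hr
      have h2 := (Av.exit hs hr ht).1
      rcases hr.last_hit D with h4 | ⟨c, h4, h5, h6⟩
      · exact hblk D hDne hD hDA s hs t h2 (h4.mono' (fun _ _ _ _ h => h.1) (fun z hz => hz.2))
      · have h7 := h5.right_mem
        simp only [Finset.coe_union, Finset.coe_erase, Finset.coe_sdiff, Set.mem_compl_iff,
          Set.mem_union, Set.mem_sdiff, Finset.mem_coe, Set.mem_singleton_iff, not_or, not_and,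
          not_not] at h7
        have h8 : c ∈ In := h7.2 ((hDf c).2 h4)
        rcases h6 with rfl | ⟨c', h6, h9⟩
        · exact ht (hDA h4)
        · have h10 : Reach EH (↑Z)ᶜ c' t := by
            refine h9.between.mono' ?_ ?_
            · intro a b _ hb he
              exact ⟨he.1, he.2, hb.1.right_mem.2⟩
            · intro z hz hzZ
              have h11 := hz.1.right_mem.1
              simp only [Finset.coe_union, Finset.coe_erase, Finset.coe_sdiff, Set.mem_compl_iff,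
                Set.mem_union, Set.mem_sdiff, Finset.mem_coe, Set.mem_singleton_iff, not_or,
                not_and, not_not] at h11
              have h12 := h11.1 hzZ
              subst h12
              exact f2 z (Av.src (Or.inl rfl) huD) t h2
                (hz.2.mono' (fun _ _ _ _ h => h.1) (fun z hz => hz.2))
          refine hc c h8 t h2 (Reach.head ?_ ⟨h6.1, h6.2, h9.1.2⟩ h10)
          intro h11
          exact huD ((h7.1 h11) ▸ h4))
    rcases Finset.mem_union.1 h1 with h2 | h2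
    · exact (Finset.mem_erase.1 h2).1 rfl
    · exact huD ((hDf u).1 (Finset.mem_sdiff.1 h2).1)
  obtain ⟨g, t, P, hP, hPd⟩ := menger 4 EH _ _ hNS
  have hgD : ∀ i, g i ∈ D := fun i => ((hIn _).1 (hP i).1).1
  have hginj : ∀ i j, i ≠ j → g i ≠ g j := fun i j hij h =>
    Set.disjoint_left.1 (hPd i j hij) (hP i).2.2.1 (h ▸ (hP j).2.2.1)
  let Tl : Fin 4 → Set V := fun i => {z | Reach EH (P i) (g i) z ∧ Reach EH (P i) z (t i)}
  have t1 : ∀ i, Reach E (Tl i) (g i) (t i) := fun i =>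
    (hP i).2.2.between.mono' (fun _ _ _ _ h => h.1) subset_rfl
  have t2 : ∀ i z, z ∈ Tl i → z ∈ D → z = g i := by
    intro i z hz hzD
    rcases hz.1.cases_tail with h | ⟨c, -, h⟩
    · exact h.symm
    · exact absurd hzD h.2.2
  have t3 : ∀ i z, z ∈ Tl i → z ∉ AD := by
    intro i z hz hzA
    refine f2 z hzA (t i) (hP i).2.1 ?_
    exact hz.2.ind (P := fun w => Reach E Dᶜ z w) (Reach.refl (Av.not_mem hzA))
      (fun x y _ h1 h2 _ => h1.tail h2.1 h2.2.2)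
  have t4 : ∀ i j z, i ≠ j → z ∈ Tl i → z ∈ Tl j → False := fun i j z hij h1 h2 =>
    Set.disjoint_left.1 (hPd i j hij) h1.1.right_mem h2.1.right_mem
  have K1 : ∀ F : Set V, F.Nonempty → Cyc E F → F ⊆ A → (∀ z ∈ F, z ∉ AD) → ∀ c,
      (∀ z ∈ F, z ∉ Tl c) → False := by
    intro F h1 h2 h3 h4 c h5
    obtain ⟨a, ha, he⟩ := ((hIn _).1 (hP c).1).2
    obtain ⟨s, hs, hr⟩ := Av.exists_reach ha
    have h6 : Reach E Fᶜ (g c) (t c) := (t1 c).mono (fun z hz h => h5 z h hz)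
    exact hblk F h1 h2 h3 s hs (t c) (hP c).2.1
      (((hr.mono (fun z hz h => h4 z h hz)).tail he h6.1).trans h6)
  have K2 : ∀ (c : Fin 4) (a b : V), Reach E (D \ {g c}) a b → E b a → False := by
    intro c a b h1 h2
    obtain ⟨F, h3, h4, h5⟩ := cyc_of_closed h1 h2
    exact K1 F h4 h5 (fun z hz => hDA (h3 hz).1) (fun z hz h => Av.not_mem h (h3 hz).1) c
      (fun z hz h => (h3 hz).2 (t2 c z h (h3 hz).1))
  let nxt : Fin 4 → Fin 4 → Prop := fun a b =>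
    ∀ c, c ≠ a → c ≠ b → ¬ Reach E (D \ {g c}) (g b) (g a)
  have U1 : ∀ a b b', b ≠ a → b' ≠ a → b ≠ b' → nxt a b → nxt a b' → False := by
    intro a b b' h1 h2 h3 h4 h5
    rcases (hsc _ (hgD b) _ (hgD a)).last_hit {g b, g b'} with h | ⟨c, hc, h6, h7⟩
    · exact h.1.2 (Or.inl rfl)
    · rcases h7 with rfl | ⟨c', h7, h8⟩
      · rcases hc with hc | hc
        · exact hginj _ _ h1 hc.symm
        · exact hginj _ _ h2 hc.symm
      · rcases hc with rfl | rfl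
        · exact h4 b' h2 h3.symm (Reach.head ⟨hgD b, hginj _ _ h3⟩ h7
            (h8.mono (fun z hz => ⟨hz.1, fun h => hz.2 (Or.inr h)⟩)))
        · exact h5 b h1 h3 (Reach.head ⟨hgD b', hginj _ _ h3.symm⟩ h7
            (h8.mono (fun z hz => ⟨hz.1, fun h => hz.2 (Or.inl h)⟩)))
  have U2 : ∀ a a' b, a ≠ b → a' ≠ b → a ≠ a' → nxt a b → nxt a' b → False := by
    intro a a' b h1 h2 h3 h4 h5
    rcases (hsc _ (hgD b) _ (hgD a)).first_hit {g a, g a'} with h | ⟨c, hc, h6, h7⟩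
    · exact h.right_mem.2 (Or.inl rfl)
    · rcases h7 with rfl | ⟨c', h7, h8⟩
      · rcases hc with hc | hc
        · exact hginj _ _ h1 hc.symm
        · exact hginj _ _ h2 hc.symm
      · rcases hc with rfl | rfl
        · exact h4 a' h3.symm h2 (Reach.tail
            (h7.mono (fun z hz => ⟨hz.1, fun h => hz.2 (Or.inr h)⟩)) h8 ⟨hgD a, hginj _ _ h3⟩)
        · exact h5 a h3 h1 (Reach.tail
            (h7.mono (fun z hz => ⟨hz.1, fun h => hz.2 (Or.inl h)⟩))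
            h8 ⟨hgD a', hginj _ _ h3.symm⟩)
  let W : Set V := {w | w ∈ AD ∧ ∃ y ∈ D, E w y}
  set AW := Av E u v W with hAW
  have hAWD : AW ⊆ AD := by
    intro z hz
    obtain ⟨s, hs, hr⟩ := Av.exists_reach hz
    exact hr.ind (P := fun w => w ∈ AD) (Av.src hs (hsD s hs)) (fun x y h1 h2 h3 _ =>
      Av.step h2 h3 (fun h => Av.not_mem h1.right_mem ⟨h2, y, h, h3⟩))
  have step1 : ∀ w s, (s = u ∨ s = v) → Reach E (insert w AW) s w → ∀ g0 a, E w g0 →
      Reach E (D \ {z | ∃ c, c ≠ a ∧ z = g c}) g0 (g a) → ∀ b, b ≠ a → ¬ nxt a b →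
      E w (g b) := by
    intro w s hs hr g0 a he hσ b hba hn
    by_contra hc
    obtain ⟨F, h1, h2, h3, h4⟩ := hin (g b) (hgD b)
    have htail : ∀ h, h ∈ Tl a → h ∉ F := by
      intro h hh hF
      simp only [nxt, not_forall, not_not] at hn
      obtain ⟨c, hca, hcb, hn⟩ := hn
      let S : Set V := {z | Reach EH (P a) (g a) z ∧ Reach EH (P a) z h}
      have h5 : Reach E ((D \ {g c}) ∪ S) (g b) h :=
        (hn.mono Set.subset_union_left).trans
          (hh.1.between.mono' (fun _ _ _ _ h => h.1) Set.subset_union_right)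
      obtain ⟨Γ, h6, h7, h8⟩ := cyc_of_closed h5 (h4 h hF)
      have hS : ∀ z ∈ S, z ∈ Tl a := fun z hz => ⟨hz.1, hz.2.trans hh.2⟩
      refine K1 Γ h7 h8 ?_ ?_ c ?_
      · intro z hz
        rcases h6 hz with h9 | h9
        · exact hDA h9.1
        · rcases h9.2.cases_head with rfl | ⟨y, h10, -⟩
          · exact h1 hF
          · exact h10.2.1
      · intro z hz
        rcases h6 hz with h9 | h9
        · exact fun h => Av.not_mem h h9.1
        · exact t3 a z (hS z h9)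
      · intro z hz h10
        rcases h6 hz with h9 | h9
        · exact h9.2 (t2 c z h10 h9.1)
        · exact t4 c a z hca h10 (hS z h9)
    have h5 : Reach E Fᶜ s w := by
      refine hr.mono ?_
      rintro z (rfl | hz) hF
      · exact hc (h4 z hF)
      · exact Av.not_mem hz ⟨hAWD hz, g b, hgD b, h4 z hF⟩
    have h6 : Reach E Fᶜ g0 (g a) := by
      refine hσ.restrict ?_
      intro h _ h7 hF
      by_cases h8 : h = g a
      · exact htail h (h8 ▸ ⟨Reach.refl (hP a).2.2.1, (hP a).2.2⟩) hF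
      have h9 : Reach E (D \ {g b}) h (g a) :=
        h7.mono (fun z hz => ⟨hz.1, fun h => hz.2 ⟨b, hba, h⟩⟩)
      rcases (hsc _ (hgD b) _ h7.1.1).last_hit {g b} with h10 | ⟨c, h10, -, h11⟩
      · exact h10.1.2 rfl
      have h10 : c = g b := h10
      subst h10
      rcases h11 with h11 | ⟨c', h11, h12⟩
      · exact hG.irrefl h (by have := h4 h hF; rwa [h11] at this)
      rcases h12.first_hit {g a} with h13 | ⟨c, h13, h14, -⟩
      · exact K2 a (g b) h (Reach.head ⟨hgD b, hginj _ _ hba⟩ h11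
          (h13.mono (fun z hz => ⟨hz.1.1, hz.2⟩))) (h4 h hF)
      · have h13 : c = g a := h13
        subst h13
        rcases h9.cases_tail with h15 | ⟨x, h15, h16⟩
        · exact h8 h15
        · exact K2 b (g a) x (h14.trans h15) h16
    have h7 : Reach E Fᶜ (g a) (t a) := (t1 a).mono htail
    exact hblk F h2 h3 h1 s hs (t a) (hP a).2.1 (((h5.tail he h6.1).trans h6).trans h7)
  have hσ : ∀ g0 ∈ D, ∃ a, Reach E (D \ {z | ∃ c, c ≠ a ∧ z = g c}) g0 (g a) := by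
    intro g0 h0
    have h1 : ∀ a, g a ∈ D \ {z | ∃ c, c ≠ a ∧ z = g c} := by
      rintro a
      refine ⟨hgD a, ?_⟩
      rintro ⟨c, h1, h2⟩
      exact hginj _ _ h1 h2.symm
    rcases (hsc _ h0 _ (hgD 0)).first_hit (Set.range g) with h | ⟨c, ⟨a, rfl⟩, -, h⟩
    · exact absurd ⟨0, rfl⟩ h.right_mem.2
    · refine ⟨a, ?_⟩
      rcases h with h | ⟨c', h2, h3⟩
      · rw [← h]; exact Reach.refl (h1 a)
      · refine (h2.mono ?_).tail h3 (h1 a)
        rintro z hz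
        refine ⟨hz.1, ?_⟩
        rintro ⟨c, -, rfl⟩
        exact hz.2 ⟨c, rfl⟩
  have hcomp : ∀ w ∈ W, (w = u ∨ w = v ∨ ∃ a ∈ AW, E a w) → ∀ b, E w (g b) := by
    intro w hw h0
    obtain ⟨s, hs, hr⟩ : ∃ s, (s = u ∨ s = v) ∧ Reach E (insert w AW) s w := by
      rcases h0 with h0 | h0 | ⟨a, ha, he⟩
      · exact ⟨w, Or.inl h0, Reach.refl (Or.inl rfl)⟩
      · exact ⟨w, Or.inr h0, Reach.refl (Or.inl rfl)⟩
      · obtain ⟨s, hs, hr⟩ := Av.exists_reach ha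
        exact ⟨s, hs, (hr.mono (Set.subset_insert _ _)).tail he (Or.inl rfl)⟩
    obtain ⟨g0, h1, h2⟩ := hw.2
    obtain ⟨a, h3⟩ := hσ g0 h1
    have h4 := step1 w s hs hr g0 a h2 h3
    obtain ⟨c1, c2, h5, h6, h7⟩ : ∃ c1 c2, c1 ≠ c2 ∧ E w (g c1) ∧ E w (g c2) := by
      have h8 : ∀ a : Fin 4, ∃ c1 c2 c3 : Fin 4, c1 ≠ a ∧ c2 ≠ a ∧ c3 ≠ a ∧ c1 ≠ c2 ∧
          c1 ≠ c3 ∧ c2 ≠ c3 := by decide
      obtain ⟨c1, c2, c3, e1, e2, e3, e4, e5, e6⟩ := h8 a
      by_cases n1 : nxt a c1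
      · exact ⟨c2, c3, e6, h4 c2 e2 (fun h => U1 a c1 c2 e1 e2 e4 n1 h),
          h4 c3 e3 (fun h => U1 a c1 c3 e1 e3 e5 n1 h)⟩
      by_cases n2 : nxt a c2
      · exact ⟨c1, c3, e5, h4 c1 e1 n1, h4 c3 e3 (fun h => U1 a c2 c3 e2 e3 e6 n2 h)⟩
      · exact ⟨c1, c2, e4, h4 c1 e1 n1, h4 c2 e2 n2⟩
    have h8 : ∀ a, g a ∈ D \ {z | ∃ c, c ≠ a ∧ z = g c} := by
      rintro a
      refine ⟨hgD a, ?_⟩
      rintro ⟨c, h1, h2⟩
      exact hginj _ _ h1 h2.symm
    intro b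
    by_cases e1 : b = c1
    · rw [e1]; exact h6
    by_cases e2 : b = c2
    · rw [e2]; exact h7
    by_cases n1 : nxt c1 b
    · exact step1 w s hs hr (g c2) c2 h7 (Reach.refl (h8 c2)) b e2
        (fun h => U2 c1 c2 b (Ne.symm e1) (Ne.symm e2) h5 n1 h)
    · exact step1 w s hs hr (g c1) c1 h6 (Reach.refl (h8 c1)) b e1 n1
  refine win (by omega) hG IH huv hns W (g 0) (g 1) (hginj 0 1 (by decide))
    (fun z hz => hAT z (f1 (hAWD hz))) (hAT _ (hDA (hgD 0)))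
    (fun h => Av.not_mem (hAWD h) (hgD 0)) (hAT u (Av.src (Or.inl rfl) huC))
    (fun w hw h => ⟨hcomp w hw h 0, hcomp w hw h 1⟩) ?_
  intro F h1 h2 h3 s hs w he hr
  have h6 : Reach E Fᶜ (g 0) (t 0) := (t1 0).mono (fun z hz h => t3 0 z hz (hAWD (h3 h)))
  exact hblk F h1 h2 (fun z hz => f1 (hAWD (h3 hz))) s hs (t 0) (hP 0).2.1
    ((hr.tail he h6.1).trans h6)

end Pool.Agent.Work.MP_97603a_co
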