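import Mathlib
import Pool.Agent.Work.MP_97603a_co.Final
import Pool.Agent.Work.MP_97603a_co.Defs

namespace Pool.Agent.Work.MP_97603a_co

open Finset

variable {V : Type} {d : ℕ} {E : V → V → Prop} {T : Set V} {u v : V}

lemma count_mono [Fintype V] [DecidableEq V] (N : Finset V) :
    ((univ : Finset (Finset V)).filter (fun X => N ⊆ X ∨ Disjoint X N)).card ≤
      2 * 2 ^ (Fintype.card V - N.card) := by
  have h1 : (univ : Finset (Finset V)).filter (fun X => N ⊆ X ∨ Disjoint X N) ⊆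
      Icc N univ ∪ (univ \ N).powerset := by
    intro X hX
    rcases (mem_filter.1 hX).2 with h | h
    · exact mem_union_left _ (mem_Icc.2 ⟨h, subset_univ _⟩)
    · refine mem_union_right _ (mem_powerset.2 ?_)
      intro z hz
      exact mem_sdiff.2 ⟨mem_univ _, fun h2 => disjoint_left.1 h hz h2⟩
  have h2 := card_le_card h1
  have h3 := card_union_le (Icc N univ) (univ \ N).powerset
  rw [card_Icc_finset (subset_univ _), card_powerset, card_univ_sdiff, card_univ] at h3
  omega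

lemma sep_of_small [Finite V] (hG : Good 20 E T) (huv : u ≠ v) (hn : Tᶜ.ncard < 2 ^ 18) :
    Sep E T u v := by
  classical
  have := Fintype.ofFinite V
  have hN : ∀ x, ∃ N : Finset V, x ∉ T → N.card = 20 ∧ ∀ y ∈ N, E x y := by
    intro x
    by_cases hx : x ∈ T
    · exact ⟨∅, fun h => absurd hx h⟩
    · obtain ⟨N, h1, h2⟩ := hG.deg x hx
      obtain ⟨N', h3, h4⟩ := exists_subset_card_eq h1
      exact ⟨N', fun _ => ⟨h4, fun y hy => h2 y (h3 hy)⟩⟩
  choose N hN using hN
  let NT : Finset V := (Set.toFinite Tᶜ).toFinset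
  have hNT : NT.card < 2 ^ 18 := by
    rwa [Set.ncard_eq_toFinset_card _ (Set.toFinite Tᶜ)] at hn
  let bad : Finset V → Finset (Finset V) := fun N =>
    (univ : Finset (Finset V)).filter (fun X => N ⊆ X ∨ Disjoint X N)
  have h1 : (bad {u, v} ∪ NT.biUnion (fun x => bad (N x))).card < 2 ^ Fintype.card V := by
    have h2 := card_union_le (bad {u, v}) (NT.biUnion (fun x => bad (N x)))
    have h3 : (bad {u, v}).card ≤ 2 * 2 ^ (Fintype.card V - 2) := by
      have := count_mono (V := V) {u, v}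
      rwa [card_pair huv] at this
    have h4 : 2 ≤ Fintype.card V := by
      have := card_le_univ ({u, v} : Finset V)
      rwa [card_pair huv] at this
    rcases NT.eq_empty_or_nonempty with h5 | ⟨x0, h5⟩
    · rw [h5] at h2 ⊢
      simp only [biUnion_empty, card_empty] at h2 ⊢
      obtain ⟨k, hk⟩ := Nat.exists_eq_add_of_le h4
      rw [hk] at h3 ⊢
      rw [Nat.add_sub_cancel_left] at h3
      have : 0 < 2 ^ k := by positivity
      rw [pow_add]
      omega
    have h6 : 20 ≤ Fintype.card V := by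
      have := card_le_univ (N x0)
      rwa [(hN x0 (by simpa [NT] using h5)).1] at this
    have h7 : (NT.biUnion (fun x => bad (N x))).card ≤
        NT.card * (2 * 2 ^ (Fintype.card V - 20)) := by
      refine card_biUnion_le_card_mul _ _ _ ?_
      intro x hx
      have := count_mono (V := V) (N x)
      rwa [(hN x (by simpa [NT] using hx)).1] at this
    obtain ⟨k, hk⟩ := Nat.exists_eq_add_of_le h6
    rw [hk] at h3 h7 ⊢
    rw [Nat.add_sub_cancel_left] at h7
    rw [show 20 + k - 2 = 18 + k by omega, pow_add] at h3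
    rw [pow_add]
    have : 0 < 2 ^ k := by positivity
    nlinarith
  obtain ⟨X, hX⟩ : ∃ X : Finset V, X ∉ bad {u, v} ∪ NT.biUnion (fun x => bad (N x)) := by
    by_contra hc
    push Not at hc
    have h2 := card_le_card (s := univ) (fun X _ => hc X)
    rw [card_univ, Fintype.card_finset] at h2
    omega
  simp only [bad, mem_union, mem_filter, mem_univ, true_and, mem_biUnion, not_or, not_exists,
    not_and] at hX
  have hf1 : Friendly E T (↑X) := by
    intro x _ hxT
    obtain ⟨y, h2, h3⟩ := not_disjoint_iff.1 (hX.2 x (by simpa [NT] using hxT)).2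
    exact ⟨y, h2, (hN x hxT).2 y h3⟩
  have hf2 : Friendly E T (↑X)ᶜ := by
    intro x _ hxT
    obtain ⟨y, h2, h3⟩ := not_subset.1 (hX.2 x (by simpa [NT] using hxT)).1
    exact ⟨y, h3, (hN x hxT).2 y h2⟩
  by_cases hu : u ∈ X
  · refine ⟨↑X, (↑X)ᶜ, disjoint_compl_right, hf1, hf2, hu, fun hv => hX.1.1 ?_⟩
    intro z hz
    rcases mem_insert.1 hz with rfl | hz
    · exact hu
    · rw [mem_singleton.1 hz]; exact hv
  · refine ⟨(↑X)ᶜ, ↑X, disjoint_compl_left, hf2, hf1, hu, ?_⟩
    obtain ⟨y, h2, h3⟩ := not_disjoint_iff.1 hX.1.2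
    rcases mem_insert.1 h3 with rfl | hz
    · exact absurd h2 hu
    · rw [← mem_singleton.1 hz]; exact h2

lemma step_exact [Finite V] (hG : Good 20 E T) (hdeg : ∀ a, {b | E a b}.ncard ≤ 20)
    (IH : IHyp V 20 Tᶜ.ncard) (huv : u ≠ v) : Sep E T u v := by
  classical
  have := Fintype.ofFinite V
  by_contra hns
  have hn : 2 ^ 18 ≤ Tᶜ.ncard := by
    by_contra hc
    exact hns (sep_of_small hG huv (by omega))
  let NT : Finset V := (Set.toFinite Tᶜ).toFinset
  have hNTm : ∀ z, z ∈ NT ↔ z ∉ T := fun z => by simp [NT]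
  have hNT : 2 ^ 18 ≤ NT.card := by
    rwa [Set.ncard_eq_toFinset_card _ (Set.toFinite Tᶜ)] at hn
  let out : V → Finset V := fun a => univ.filter (fun b => E a b)
  have hout : ∀ a, (out a).card ≤ 20 := by
    intro a
    have h1 := hdeg a
    rw [Set.ncard_eq_toFinset_card' ] at h1
    simpa [out] using h1
  let inn : V → Finset V := fun b => univ.filter (fun a => E a b)
  have hNB : ∀ B : Finset V, (B.biUnion out).card ≤ B.card * 20 := fun B =>
    card_biUnion_le_card_mul _ _ _ (fun a _ => hout a)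
  have hhigh : ∀ S B : Finset V, (∀ y ∈ S, 28 < (inn y).card) →
      (∀ y ∈ S, ∀ a, E a y → a ∈ B) → S.card * 29 ≤ B.card * 20 := by
    intro S B h1 h2
    refine card_mul_le_card_mul (fun y a => E a y) ?_ ?_
    · intro y hy
      refine le_trans (h1 y hy) (card_le_card ?_)
      intro a ha
      have h3 : E a y := (mem_filter.1 ha).2
      exact mem_filter.2 ⟨h2 y hy a h3, h3⟩
    · intro a _
      refine le_trans (card_le_card ?_) (hout a)
      intro y hy
      exact mem_filter.2 ⟨mem_univ _, (mem_filter.1 hy).2⟩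
  have hlow : ∀ B : Finset V, B.card ≤ 3236 → ∃ D : Set V, D.Nonempty ∧ Cyc E D ∧
      (∀ a ∈ D, ∀ b ∈ D, Reach E D a b) ∧ D.ncard ≤ 28 ∧ ∀ a ∈ D, a ∉ B := by
    intro B hB
    let S := NT.filter (fun y => 28 < (inn y).card)
    have h1 := hhigh S NT (fun y hy => (mem_filter.1 hy).2)
      (fun y _ a ha => (hNTm a).2 (hG.term _ _ ha))
    have h2 := hNB B
    obtain ⟨y, h3, h4⟩ : ∃ y ∈ NT, y ∉ (S ∪ B.biUnion out) ∪ {u, v} := by
      by_contra hc
      push Not at hc
      have h3 := card_le_card (s := NT) hc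
      have h4 := card_union_le (S ∪ B.biUnion out) {u, v}
      have h5 := card_union_le S (B.biUnion out)
      have h6 : ({u, v} : Finset V).card ≤ 2 := card_le_two
      omega
    simp only [S, out, mem_union, mem_filter, mem_biUnion, mem_univ, true_and, mem_insert,
      mem_singleton, not_or, not_and, not_exists, not_lt] at h4
    obtain ⟨D, h5, h6, h7, h8⟩ := in_cycle (by omega) hG IH huv hns ((hNTm y).1 h3) h4.2.1 h4.2.2
    refine ⟨D, h6, h7, h8, ?_, fun a ha hB => h4.1.2 a hB (h5 ha)⟩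
    refine le_trans ?_ (h4.1.1 h3)
    rw [← Set.ncard_coe_finset]
    exact Set.ncard_le_ncard (fun a ha => by simpa [inn] using h5 ha) (Set.toFinite _)
  obtain ⟨C, ⟨hCne, hC, hCc, huC, hvC⟩, hmax⟩ := Set.exists_max_image
    {C : Set V | C.Nonempty ∧ Cyc E C ∧ C.ncard ≤ 28 ∧ u ∉ C ∧ v ∉ C}
    (fun C => (Av E u v C).ncard) (Set.toFinite _) (by
      obtain ⟨D, h1, h2, -, h3, h4⟩ := hlow {u, v} (le_trans card_le_two (by norm_num))
      exact ⟨D, h1, h2, h3, fun h => h4 u h (by simp), fun h => h4 v h (by simp)⟩)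
  set A := Av E u v C with hA
  have huA : u ∈ A := Av.src (Or.inl rfl) huC
  have hvA : v ∈ A := Av.src (Or.inr rfl) hvC
  obtain ⟨e, heC, a, haA, hae⟩ : ∃ e ∈ C, ∃ a ∈ A, E a e := by
    obtain ⟨c, hc⟩ := hCne
    have hcT : c ∉ T := by
      obtain ⟨y, -, h⟩ := hC c hc
      exact hG.term _ _ h
    obtain ⟨s, hs, hr⟩ := Av.exists_reach (all_reachable hG IH huv hns c hcT)
    rcases hr.first_hit C with h | ⟨e, he, -, h⟩
    · exact absurd hc h.right_mem.2
    · rcases h with rfl | ⟨a, h1, h2⟩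
      · rcases hs with rfl | rfl
        · exact absurd he huC
        · exact absurd he hvC
      · exact ⟨e, he, a, Av.of_reach hs (h1.mono (fun z hz => hz.2)), h2⟩
  let F0 : Finset V := NT.filter (fun z => z ∉ A)
  have hF0m : ∀ z, z ∈ F0 ↔ z ∉ T ∧ z ∉ A := fun z => by simp [F0, hNTm]
  have hinF : ∀ g, g ∉ A → g ∉ C → ∀ a, E a g → a ∈ F0 := fun g h1 h2 a h3 =>
    (hF0m a).2 ⟨hG.term _ _ h3, fun h => h1 (Av.step h h3 h2)⟩
  have hF0 : F0.card ≤ 154 := by
    let S := F0.filter (fun y => y ∉ C ∧ 28 < (inn y).card)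
    have h1 := hhigh S F0 (fun y hy => (mem_filter.1 hy).2.2) (fun y hy =>
      hinF y ((hF0m y).1 (mem_filter.1 hy).1).2 (mem_filter.1 hy).2.1)
    let Cf : Finset V := (Set.toFinite C).toFinset
    have h2 : Cf.card ≤ 28 := by
      rwa [Set.ncard_eq_toFinset_card C (Set.toFinite C)] at hCc
    have h3 : F0 ⊆ (S ∪ Cf) ∪ out e := by
      intro g hg
      by_cases h3 : g ∈ C
      · exact mem_union_left _ (mem_union_right _ ((Set.Finite.mem_toFinset _).2 h3))
      by_cases h4 : 28 < (inn g).card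
      · exact mem_union_left _ (mem_union_left _ (mem_filter.2 ⟨hg, h3, h4⟩))
      refine mem_union_right _ (mem_filter.2 ⟨mem_univ _, ?_⟩)
      obtain ⟨h5, h6⟩ := (hF0m g).1 hg
      obtain ⟨D, h7, h8, h9, -⟩ := in_cycle (by omega) hG IH huv hns h5
        (fun h => h6 (h ▸ huA)) (fun h => h6 (h ▸ hvA))
      have h10 : ∀ z ∈ D, z ∉ A := fun z hz => ((hF0m z).1 (hinF g h6 h3 z (h7 hz))).2
      have h11 : A ⊆ Av E u v D := by
        intro z hz
        obtain ⟨s, hs, hr⟩ := Av.exists_reach hz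
        exact Av.of_reach hs (hr.mono (fun w hw h => h10 w h hw))
      have h12 := hmax D ⟨h8, h9, by
        refine le_trans ?_ (not_lt.1 h4)
        rw [← Set.ncard_coe_finset]
        exact Set.ncard_le_ncard (fun a ha => by simpa [inn] using h7 ha) (Set.toFinite _),
        fun h => h10 u h huA, fun h => h10 v h hvA⟩
      have h13 := Set.eq_of_subset_of_ncard_le h11 h12 (Set.toFinite _)
      by_contra hc
      have h14 : e ∈ Av E u v D := Av.step (h11 haA) hae (fun h => hc (h7 h))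
      rw [← h13] at h14
      exact Av.not_mem h14 heC
    have h4 := card_le_card h3
    have h5 := card_union_le (S ∪ Cf) (out e)
    have h6 := card_union_le S Cf
    have h7 := hout e
    omega
  obtain ⟨D, h1, h2, h3, h4, h5⟩ := hlow (({u, v} ∪ F0) ∪ F0.biUnion out) (by
    have h1 := card_union_le ({u, v} ∪ F0) (F0.biUnion out)
    have h2 := card_union_le ({u, v} : Finset V) F0
    have h3 : ({u, v} : Finset V).card ≤ 2 := card_le_two
    have h4 := hNB F0
    omega)
  simp only [out, mem_union, mem_insert, mem_singleton, mem_biUnion, mem_filter, mem_univ,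
    true_and, not_or, not_exists, not_and] at h5
  have hDT : ∀ z ∈ D, z ∉ T := by
    intro z hz
    obtain ⟨y, -, h⟩ := h2 z hz
    exact hG.term _ _ h
  refine final hG IH huv hns hC hCne huC hvC ?_ h1 h2 h3 h4 (fun h => (h5 u h).1.1.1 rfl)
    (fun h => (h5 v h).1.1.2 rfl) ?_
  · intro z hz
    by_contra hc
    exact (h5 z hz).1.2 ((hF0m z).2 ⟨hDT z hz, hc⟩)
  · intro g hg
    obtain ⟨F, h7, h8, h9, -⟩ := in_cycle (by omega) hG IH huv hns (hDT g hg)
      (h5 g hg).1.1.1 (h5 g hg).1.1.2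
    refine ⟨F, ?_, h8, h9, fun a ha => h7 ha⟩
    intro z hz
    by_contra hc
    exact (h5 g hg).2 z ((hF0m z).2 ⟨hG.term _ _ (h7 hz), hc⟩) (h7 hz)

theorem all_sep [Finite V] (n : ℕ) : IHyp V 20 n := by
  classical
  induction n with
  | zero => intro E T _ h; omega
  | succ n ih =>
    intro E T hG hn u v huv
    have hN : ∀ x, ∃ N : Finset V, N.card ≤ 20 ∧ (∀ y ∈ N, E x y) ∧ (x ∉ T → 20 ≤ N.card) := by
      intro x
      by_cases hx : x ∈ T
      · exact ⟨∅, by simp, by simp, fun h => absurd hx h⟩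
      · obtain ⟨N, h1, h2⟩ := hG.deg x hx
        obtain ⟨N', h3, h4⟩ := exists_subset_card_eq h1
        exact ⟨N', h4.le, fun y hy => h2 y (h3 hy), fun _ => h4.ge⟩
    choose N hN using hN
    have hG' : Good 20 (fun a b => b ∈ N a) T :=
      ⟨fun x hx => hG.irrefl x ((hN x).2.1 x hx), fun x y h => hG.term x y ((hN x).2.1 y h),
        fun x hx => ⟨N x, (hN x).2.2 hx, fun y hy => hy⟩⟩
    obtain ⟨U0, U1, h1, h2, h3, h4, h5⟩ := step_exact hG' (fun a => by
      simpa using (hN a).1) (fun E' T' h1 h2 => ih E' T' h1 (by omega)) huv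
    refine ⟨U0, U1, h1, fun x hx hxT => ?_, fun x hx hxT => ?_, h4, h5⟩
    · obtain ⟨y, h6, h7⟩ := h2 x hx hxT
      exact ⟨y, h6, (hN x).2.1 y h7⟩
    · obtain ⟨y, h6, h7⟩ := h3 x hx hxT
      exact ⟨y, h6, (hN x).2.1 y h7⟩

theorem main_separable (V : Type) [Fintype V] (G : Digraph V) (hl : ∀ x, ¬ G.Adj x x)
    (hd : ∀ x, 20 ≤ {y | G.Adj x y}.ncard) (S : Finset V) (hS : 2 ≤ S.card) :
    Separable G S := by
  obtain ⟨u, hu, v, hv, huv⟩ := one_lt_card.1 hS
  have hG : Good 20 G.Adj ∅ := by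
    refine ⟨hl, fun _ _ _ => by simp, fun x _ => ⟨(Set.toFinite {y | G.Adj x y}).toFinset, ?_,
      fun y hy => by simpa using hy⟩⟩
    rw [← Set.ncard_eq_toFinset_card]
    exact hd x
  obtain ⟨U0, U1, h1, h2, h3, h4, h5⟩ := all_sep _ G.Adj ∅ hG (Nat.lt_succ_self _) u v huv
  let W : Set V := {z | ∃ X : Set V, Friendly G.Adj ∅ X ∧ Disjoint U0 X ∧ z ∈ X}
  have hW : ∀ x ∈ W, ∃ y ∈ W, G.Adj x y := by
    rintro x ⟨X, c1, c2, c3⟩
    obtain ⟨y, c4, c5⟩ := c1 x c3 (by simp)
    exact ⟨y, ⟨X, c1, c2, c4⟩, c5⟩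
  have hU : ∀ z ∈ U0, z ∉ W := by
    rintro z hz ⟨X, -, c2, c3⟩
    exact Set.disjoint_left.1 c2 hz c3
  refine ⟨Wᶜ, W, ⟨⟨u, hU u h4⟩, ⟨v, U1, h3, h1, h5⟩, disjoint_compl_left, by simp, ?_, hW⟩,
    ⟨u, hu, hU u h4⟩, ⟨v, hv, U1, h3, h1, h5⟩⟩
  intro x hx
  by_cases hx0 : x ∈ U0
  · obtain ⟨y, c1, c2⟩ := h2 x hx0 (by simp)
    exact ⟨y, hU y c1, c2⟩
  · obtain ⟨y, c1, -⟩ := hG.nbr (x := x) (by simp) ∅ (by simp)
    refine ⟨y, fun c2 => hx ⟨insert x W, ?_, ?_, Or.inl rfl⟩, c1⟩
    · rintro z (rfl | hz) _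
      · exact ⟨y, Or.inr c2, c1⟩
      · obtain ⟨w, c3, c4⟩ := hW z hz
        exact ⟨w, Or.inr c3, c4⟩
    · rw [Set.disjoint_left]
      rintro z hz (rfl | c3)
      · exact hx0 hz
      · exact hU z hz c3

end Pool.Agent.Work.MP_97603a_co
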